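import Mathlib
import Pool.Agent.Helper559.Wlower
import Pool.Agent.Helper559.Ebound
import Pool.Agent.Helper559.Numeric

set_option autoImplicit false
set_option maxHeartbeats 4000000

namespace Pool.Agent.H392R2.Harm

open Finset Pool.Agent.Helper559

lemma edge2 (a b : ℕ) (ha : 0 < a) (hb : 0 < b) (hab : a ≠ b) (hoa : Odd a) (hob : Odd b)
    (h : a + b ∣ 2 * a * b) :
    ∃ k m n e : ℕ, 0 < k ∧ 0 < m ∧ 0 < n ∧ 0 < e ∧ Nat.Coprime m n ∧ m ≠ n ∧ m + n = 2 * e ∧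
      a = k * m * e ∧ b = k * n * e := by
  obtain ⟨m, n, hco, hm, hn⟩ := Nat.exists_coprime a b
  set g := Nat.gcd a b with hg
  have hg0 : 0 < g := Nat.gcd_pos_of_pos_left b ha
  have hm0 : 0 < m := by
    rcases Nat.eq_zero_or_pos m with h0 | h0
    · rw [h0] at hm; simp at hm; omega
    · exact h0
  have hn0 : 0 < n := by
    rcases Nat.eq_zero_or_pos n with h0 | h0
    · rw [h0] at hn; simp at hn; omega
    · exact h0
  have hmo : Odd m := by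
    rw [hm] at hoa
    exact (Nat.odd_mul.1 hoa).1
  have hno : Odd n := by
    rw [hn] at hob
    exact (Nat.odd_mul.1 hob).1
  obtain ⟨e, he⟩ : ∃ e, m + n = 2 * e := by
    obtain ⟨e, he⟩ := hmo.add_odd hno
    exact ⟨e, by omega⟩
  have h1 : (m + n) * g ∣ (2 * g * (m * n)) * g := by
    have e1 : a + b = (m + n) * g := by
      calc a + b = m * g + n * g := by rw [← hm, ← hn]
        _ = _ := by ring
    have e2 : 2 * a * b = (2 * g * (m * n)) * g := by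
      calc 2 * a * b = 2 * (m * g) * (n * g) := by rw [← hm, ← hn]
        _ = _ := by ring
    rw [← e1, ← e2]; exact h
  have h2 : m + n ∣ 2 * g * (m * n) := Nat.dvd_of_mul_dvd_mul_right hg0 h1
  have hco2 : Nat.Coprime (m + n) (m * n) := by
    apply Nat.Coprime.mul_right
    · rw [Nat.coprime_self_add_left]
      exact hco.symm
    · rw [Nat.coprime_add_self_left]
      exact hco
  have h3 : m + n ∣ 2 * g := hco2.dvd_of_dvd_mul_right h2
  rw [he] at h3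
  have h4 : e ∣ g := Nat.dvd_of_mul_dvd_mul_left (by norm_num) h3
  obtain ⟨k, hk⟩ := h4
  refine ⟨k, m, n, e, ?_, hm0, hn0, by omega, hco, ?_, he, ?_, ?_⟩
  · rcases Nat.eq_zero_or_pos k with h0 | h0
    · rw [h0] at hk; simp at hk; omega
    · exact h0
  · intro hmn
    apply hab
    rw [hm, hn, hmn]
  · rw [hm, hk]; ring
  · rw [hn, hk]; ring

/-- Rough integers with a typical number of prime factors at every scale. -/
def W (T : ℕ) (κ : ℕ → ℝ) : Set ℕ :=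
  {u | 0 < u ∧ rough T u ∧ ∀ i : ℕ, (Om T (T ^ (2 ^ i)) u : ℝ) ≤ κ i}

/-- Members of `W` with a neighbour in `W` at bounded ratio. -/
def D (T R : ℕ) (κ : ℕ → ℝ) : Set ℕ :=
  {b | b ∈ W T κ ∧ ∃ w ∈ W T κ, w ≠ b ∧ w + b ∣ 2 * w * b ∧ w ≤ R * b ∧ b ≤ R * w}

/-- The final set. -/
def A (T R : ℕ) (κ : ℕ → ℝ) : Set ℕ := W T κ \ D T R κ

lemma A_adm (T R : ℕ) (κ : ℕ → ℝ) : ∀ a ∈ A T R κ, ∀ b ∈ A T R κ, a ≠ b → a ≤ R * b → b ≤ R * a →
    ¬ (a + b ∣ 2 * a * b) := by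
  intro a ha b hb hab hab1 hab2 hdvd
  exact hb.2 ⟨hb.1, a, ha.1, hab, hdvd, hab1, hab2⟩

lemma rough_odd {T u : ℕ} (hT : 2 ≤ T) (h : rough T u) : Odd u := by
  by_contra h2
  rw [Nat.not_odd_iff_even] at h2
  have := h 2 Nat.prime_two h2.two_dvd
  omega

open scoped Classical in
lemma cover2 (T R : ℕ) (hT : 2 ≤ T) (κ : ℕ → ℝ) (M b : ℕ) (hbM : b ≤ M) (hb : b ∈ D T R κ) :
    ∃ i k m n : ℕ, i < 2 * M ∧ T ^ (2 ^ i) ≤ 2 * M ∧ 2 * b = k * (n * (m + n)) ∧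
      k ∈ (Icc 1 (2 * M)).filter (fun k => orough T k) ∧
      (m, n) ∈ Qs T (T ^ (2 ^ i)) R ∧
      ((Om T (T ^ (2 ^ i)) k + Om T (T ^ (2 ^ i)) m + Om T (T ^ (2 ^ i)) (m + n) : ℕ) : ℝ) ≤ κ i ∧
      ((Om T (T ^ (2 ^ i)) k + Om T (T ^ (2 ^ i)) n + Om T (T ^ (2 ^ i)) (m + n) : ℕ) : ℝ) ≤ κ i := by
  obtain ⟨⟨hb0, hrb, hκb⟩, w, ⟨hw0, hrw, hκw⟩, hwb, hdvd, hwR, hbR⟩ := hb
  have how := rough_odd hT hrw
  have hob := rough_odd hT hrb
  obtain ⟨k, m, n, e, hk0, hm0, hn0, he0, hco, hmn, hmne, hw, hbk⟩ := edge2 w b hw0 hb0 hwb how hob hdvd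
  have hdk : k ∣ w := ⟨m * e, by rw [hw]; ring⟩
  have hdm : m ∣ w := ⟨k * e, by rw [hw]; ring⟩
  have hde : e ∣ w := ⟨k * m, by rw [hw]; ring⟩
  have hok : orough T k := fun p hp h => Or.inr (hrw p hp (h.trans hdk))
  have hom : orough T m := fun p hp h => Or.inr (hrw p hp (h.trans hdm))
  have hre : rough T e := fun p hp h => hrw p hp (h.trans hde)
  have hos : orough T (m + n) := by
    intro p hp h
    rw [hmne] at h
    rcases (hp.dvd_mul).1 h with h1 | h1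
    · left; exact (Nat.prime_dvd_prime_iff_eq hp Nat.prime_two).1 h1
    · right; exact hre p hp h1
  have he1 : 1 < e := by omega
  have hsT : T < m + n := by
    obtain ⟨p, hp, hpe⟩ := Nat.exists_prime_and_dvd (show e ≠ 1 by omega)
    have h1 := hre p hp hpe
    have h2 := Nat.le_of_dvd he0 hpe
    omega
  -- the scale
  have hex : ∃ j : ℕ, m + n ≤ T ^ (2 ^ j) := ⟨m + n, (le_pow_two_pow T (m + n) hT).le⟩
  set j := Nat.find hex with hj
  have hj1 : m + n ≤ T ^ (2 ^ j) := Nat.find_spec hex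
  have hj0 : j ≠ 0 := by
    intro h
    rw [h] at hj1
    simp at hj1
    omega
  obtain ⟨i, hi⟩ : ∃ i, j = i + 1 := ⟨j - 1, by omega⟩
  have hi1 : T ^ (2 ^ i) < m + n := by
    have := Nat.find_min hex (m := i) (by omega)
    exact not_le.1 this
  have hi2 : m + n ≤ (T ^ (2 ^ i)) ^ 2 := by
    rw [hi] at hj1
    rw [← pow_mul, ← pow_succ]
    exact hj1
  have heb : e ≤ b := by
    rw [hbk]
    exact Nat.le_mul_of_pos_left _ (by positivity)
  have hsM : m + n ≤ 2 * M := by omega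
  have hiM : i < 2 * M := by
    have h1 : i < 2 ^ i := Nat.lt_two_pow_self
    have h2 : 2 ^ i < T ^ (2 ^ i) := by
      calc 2 ^ i < 2 ^ (2 ^ i) := Nat.lt_two_pow_self
        _ ≤ T ^ (2 ^ i) := Nat.pow_le_pow_left hT _
    omega
  have hOmn : Om T (T ^ (2 ^ i)) (m + n) = Om T (T ^ (2 ^ i)) e := by
    rw [hmne, Om_mul _ _ _ _ (by norm_num) (by omega), Om_two _ _ hT, zero_add]
  refine ⟨i, k, m, n, hiM, by omega, ?_, ?_, ?_, ?_, ?_⟩
  · rw [hbk, hmne]; ring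
  · rw [Finset.mem_filter, Finset.mem_Icc]
    refine ⟨⟨hk0, ?_⟩, hok⟩
    have : k ≤ b := Nat.le_of_dvd hb0 ⟨n * e, by rw [hbk]; ring⟩
    omega
  · rw [Qs, Finset.mem_filter, Finset.mem_product, Finset.mem_Icc, Finset.mem_Icc]
    refine ⟨⟨⟨hm0, by omega⟩, ⟨hn0, by omega⟩⟩, hco, hi1, hi2, ?_, ?_, hom, hos⟩
    · have h1 : (k * e) * m ≤ (k * e) * (R * n) := by
        calc (k * e) * m = w := by rw [hw]; ring
          _ ≤ R * b := hwR
          _ = (k * e) * (R * n) := by rw [hbk]; ring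
      exact Nat.le_of_mul_le_mul_left h1 (by positivity)
    · have h1 : (k * e) * n ≤ (k * e) * (R * m) := by
        calc (k * e) * n = b := by rw [hbk]; ring
          _ ≤ R * w := hbR
          _ = (k * e) * (R * m) := by rw [hw]; ring
      exact Nat.le_of_mul_le_mul_left h1 (by positivity)
  · have h2 : Om T (T ^ (2 ^ i)) w = Om T (T ^ (2 ^ i)) k + Om T (T ^ (2 ^ i)) m + Om T (T ^ (2 ^ i)) e := by
      rw [hw, Om_mul _ _ _ _ (by positivity) (by positivity), Om_mul _ _ _ _ (by positivity) (by positivity)]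
    rw [hOmn, ← h2]
    exact hκw i
  · have h2 : Om T (T ^ (2 ^ i)) b = Om T (T ^ (2 ^ i)) k + Om T (T ^ (2 ^ i)) n + Om T (T ^ (2 ^ i)) e := by
      rw [hbk, Om_mul _ _ _ _ (by positivity) (by positivity), Om_mul _ _ _ _ (by positivity) (by positivity)]
    rw [hOmn, ← h2]
    exact hκb i

open scoped Classical in
lemma D_sum (T R : ℕ) (hT : 2 ≤ T) (κ : ℕ → ℝ) (M : ℕ) :
    LM (D T R κ) M ≤ ∑ i ∈ (range (2 * M)).filter (fun i => T ^ (2 ^ i) ≤ 2 * M),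
      2 * ((2 / 5 : ℝ) ^ (-(κ i)) * (3 / 4 : ℝ) ^ (-(κ i))) *
      ((∑ k ∈ (Icc 1 (2 * M)).filter (fun k => orough T k), (2 / 5 * (3 / 4) : ℝ) ^ Om T (T ^ (2 ^ i)) k / k) *
      (∑ x ∈ Qs T (T ^ (2 ^ i)) R, (2 / 5 : ℝ) ^ Om T (T ^ (2 ^ i)) x.1 * (3 / 4) ^ Om T (T ^ (2 ^ i)) x.2 *
        (2 / 5 * (3 / 4)) ^ Om T (T ^ (2 ^ i)) (x.1 + x.2) / ((x.2 : ℝ) * ((x.1 : ℝ) + x.2)))) := by
  set J := (_ : ℕ) × (ℕ × (ℕ × ℕ)) with hJ
  set t : Finset J := ((range (2 * M)).filter (fun i => T ^ (2 ^ i) ≤ 2 * M)).sigma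
    (fun i => ((Icc 1 (2 * M)).filter (fun k => orough T k)) ×ˢ (Qs T (T ^ (2 ^ i)) R)) with ht
  set g : J → ℝ := fun j => 2 * ((2 / 5 : ℝ) ^ (-(κ j.1)) * (3 / 4 : ℝ) ^ (-(κ j.1))) *
      (((2 / 5 * (3 / 4) : ℝ) ^ Om T (T ^ (2 ^ j.1)) j.2.1 / j.2.1) *
       ((2 / 5 : ℝ) ^ Om T (T ^ (2 ^ j.1)) j.2.2.1 * (3 / 4) ^ Om T (T ^ (2 ^ j.1)) j.2.2.2 *
        (2 / 5 * (3 / 4)) ^ Om T (T ^ (2 ^ j.1)) (j.2.2.1 + j.2.2.2) /
          ((j.2.2.2 : ℝ) * ((j.2.2.1 : ℝ) + j.2.2.2)))) with hg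
  have hgn : ∀ j ∈ t, 0 ≤ g j := by
    intro j _
    simp only [hg]
    positivity
  have hmain : LM (D T R κ) M ≤ ∑ j ∈ t, g j := by
    apply LM_cover _ M t g (fun j => j.2.1 * (j.2.2.2 * (j.2.2.1 + j.2.2.2)) / 2) hgn
    intro b hb hb1 hbM
    obtain ⟨i, k, m, n, hiM, hyM, hbk, hk, hmn, hκ, hc⟩ := cover2 T R hT κ M b hbM hb
    refine ⟨⟨i, (k, (m, n))⟩, ?_, ?_, ?_⟩
    · rw [ht, Finset.mem_sigma, Finset.mem_filter, Finset.mem_product, Finset.mem_range]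
      exact ⟨⟨hiM, hyM⟩, hk, hmn⟩
    · simp only
      rw [← hbk]; omega
    · simp only [hg]
      have hk0 : (0 : ℝ) < k := by
        rw [Finset.mem_filter, Finset.mem_Icc] at hk
        exact_mod_cast hk.1.1
      have hn0 : (0 : ℝ) < n := by
        rw [Qs, Finset.mem_filter, Finset.mem_product, Finset.mem_Icc, Finset.mem_Icc] at hmn
        exact_mod_cast hmn.1.2.1
      have hm0 : (0 : ℝ) < m := by
        rw [Qs, Finset.mem_filter, Finset.mem_product, Finset.mem_Icc, Finset.mem_Icc] at hmn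
        exact_mod_cast hmn.1.1.1
      have e1 := one_le_rpow_mul_pow (2 / 5) (by norm_num) (by norm_num) _ (κ i) hκ
      have e2 := one_le_rpow_mul_pow (3 / 4) (by norm_num) (by norm_num) _ (κ i) hc
      set ok := Om T (T ^ (2 ^ i)) k
      set om := Om T (T ^ (2 ^ i)) m
      set on := Om T (T ^ (2 ^ i)) n
      set os := Om T (T ^ (2 ^ i)) (m + n)
      have e3 := one_le_mul_of_one_le_of_one_le e1 e2
      have hb2 : (1 : ℝ) / b = 2 * (1 / ((k : ℝ) * ((n : ℝ) * ((m : ℝ) + n)))) := by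
        have h5 : (2 : ℝ) * b = k * (n * (m + n)) := by exact_mod_cast hbk
        have hb0 : (0 : ℝ) < b := by exact_mod_cast hb1
        rw [← h5]
        field_simp
      rw [hb2]
      have e4 : 2 * ((2 / 5 : ℝ) ^ (-(κ i)) * (3 / 4 : ℝ) ^ (-(κ i))) * (((2 / 5 * (3 / 4) : ℝ) ^ ok / k) *
       ((2 / 5 : ℝ) ^ om * (3 / 4) ^ on * (2 / 5 * (3 / 4)) ^ os / ((n : ℝ) * ((m : ℝ) + n)))) =
        ((2 / 5 : ℝ) ^ (-(κ i)) * (2 / 5) ^ (ok + om + os) * ((3 / 4 : ℝ) ^ (-(κ i)) * (3 / 4) ^ (ok + on + os))) *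
          (2 * (1 / ((k : ℝ) * ((n : ℝ) * ((m : ℝ) + n))))) := by
        rw [pow_add, pow_add, pow_add, pow_add, mul_pow, mul_pow]
        field_simp
      rw [e4]
      have h0 : 0 ≤ 2 * (1 / ((k : ℝ) * ((n : ℝ) * ((m : ℝ) + n)))) := by positivity
      exact le_mul_of_one_le_left h0 e3
  refine hmain.trans (le_of_eq ?_)
  rw [ht, Finset.sum_sigma]
  apply Finset.sum_congr rfl
  intro i _
  simp only [hg]
  rw [Finset.sum_mul_sum, Finset.mul_sum, Finset.sum_product]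
  apply Finset.sum_congr rfl
  intro k _
  rw [Finset.mul_sum]

end Pool.Agent.H392R2.Harm
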