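import Mathlib
import Pool.Agent.H392R2.Harm

set_option autoImplicit false
set_option maxHeartbeats 4000000

namespace Pool.Agent.H392R2.Harm

open Finset Pool.Agent.Helper559

lemma LM_eq (X : Set ℕ) (M : ℕ) : LM X M = ∑ n ∈ Icc 1 M, Set.indicator X (fun n => (1 : ℝ) / n) n := by
  classical
  rw [LM, Finset.sum_filter]
  apply Finset.sum_congr rfl
  intro n _
  by_cases h : n ∈ X
  · rw [if_pos h, Set.indicator_of_mem h]
  · rw [if_neg h, Set.indicator_of_notMem h]

lemma LM_nonneg (X : Set ℕ) (M : ℕ) : 0 ≤ LM X M := by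
  rw [LM]
  exact Finset.sum_nonneg fun n _ => by positivity

lemma LM_WAD (T R : ℕ) (κ : ℕ → ℝ) (M : ℕ) :
    LM (W T κ) M ≤ LM (A T R κ) M + LM (D T R κ) M := by
  rw [LM_eq, LM_eq, LM_eq, ← Finset.sum_add_distrib]
  apply Finset.sum_le_sum
  intro n _
  have h0 : (0 : ℝ) ≤ 1 / n := by positivity
  have hA : 0 ≤ Set.indicator (A T R κ) (fun n => (1 : ℝ) / n) n := Set.indicator_nonneg (fun n _ => by positivity) n
  have hDn : 0 ≤ Set.indicator (D T R κ) (fun n => (1 : ℝ) / n) n := Set.indicator_nonneg (fun n _ => by positivity) n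
  by_cases hW : n ∈ W T κ
  · rw [Set.indicator_of_mem hW]
    by_cases hD : n ∈ D T R κ
    · rw [Set.indicator_of_mem hD]; linarith
    · have : n ∈ A T R κ := ⟨hW, hD⟩
      rw [Set.indicator_of_mem this]; linarith
  · rw [Set.indicator_of_notMem hW]; linarith

open scoped Classical in
lemma LM_W_eq (T : ℕ) (κ : ℕ → ℝ) (M : ℕ) :
    ∑ u ∈ (Icc 1 M).filter (fun u => rough T u ∧ ∀ i : ℕ, (Om T (T ^ (2 ^ i)) u : ℝ) ≤ κ i),
      (1 : ℝ) / u = LM (W T κ) M := by
  rw [LM]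
  apply Finset.sum_congr _ (fun _ _ => rfl)
  ext u
  simp only [Finset.mem_filter, Finset.mem_Icc, W, Set.mem_setOf_eq]
  constructor
  · rintro ⟨h1, h2, h3⟩; exact ⟨h1, by omega, h2, h3⟩
  · rintro ⟨h1, _, h2, h3⟩; exact ⟨h1, h2, h3⟩

theorem main_bound (R : ℕ) : ∃ (T : ℕ) (κ : ℕ → ℝ) (c : ℝ), 0 < c ∧
    ∃ C : ℝ, ∀ M : ℕ, 1 ≤ M → c * Real.log M - C ≤ LM (A T R κ) M := by
  classical
  obtain ⟨C₀, hC₀0, hC₀⟩ := mertens
  set C := max C₀ 1 with hCdef
  have hC1 : 1 ≤ C := le_max_right _ _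
  have hC : ∀ x : ℕ, 2 ≤ x → |S x - Real.log (Real.log x)| ≤ C := fun x hx => (hC₀ x hx).trans (le_max_left _ _)
  obtain ⟨K, hK0, hK⟩ := W_lower C hC (1 / 100) (by norm_num) (by norm_num)
  obtain ⟨C3, τ0, hC30, hτ03, hE⟩ := E_bound C hC1 hC
  obtain ⟨G, hG0, hG⟩ := geom_bound (1 / 100) (by norm_num)
  have hl2a := Real.log_two_gt_d9
  have hl2b := Real.log_two_lt_d9
  set κ : ℕ → ℝ := fun i => K + (1 + 1 / 100) * (i * Real.log 2) with hκ
  set C4 : ℝ := 2 * Real.exp (K * (Real.log (5 / 2) + Real.log (4 / 3))) * C3 * G with hC4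
  have hC40 : 0 < C4 := by positivity
  set c1 : ℝ := 1 / 2 * Real.exp (-C - 9 / 4) with hc1
  have hc10 : 0 < c1 := by positivity
  -- choice of T
  obtain ⟨T, hTτ0, hTR, hTL, hTbig⟩ : ∃ T : ℕ, τ0 ≤ Real.log T ∧ (R : ℝ) ≤ Real.log T ∧ 1 ≤ Real.log (Real.log T) ∧
      (C4 * (Real.log (Real.log T) + 2) ^ 3) * Real.exp (-(Real.log (Real.log T))) ≤ c1 / 4 := by
    have t1 : Filter.Tendsto (fun T : ℕ => Real.log (T : ℝ)) Filter.atTop Filter.atTop :=
      Real.tendsto_log_atTop.comp tendsto_natCast_atTop_atTop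
    have t2 : Filter.Tendsto (fun T : ℕ => Real.log (Real.log (T : ℝ))) Filter.atTop Filter.atTop :=
      Real.tendsto_log_atTop.comp t1
    have h := tendsto_exp_mul_div_rpow_atTop 3 1 (by norm_num)
    have ev : ∀ᶠ x : ℝ in Filter.atTop, (C4 * (x + 2) ^ 3) * Real.exp (-x) ≤ c1 / 4 := by
      filter_upwards [h.eventually_ge_atTop ((27 * C4) / (c1 / 4)), Filter.eventually_ge_atTop 1] with x hx hx1
      have e : x ^ (3 : ℝ) = x ^ 3 := by
        rw [← Real.rpow_natCast]; norm_num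
      rw [e, div_le_div_iff₀ (by positivity) (by positivity)] at hx
      rw [Real.exp_neg, ← div_eq_mul_inv, div_le_iff₀ (Real.exp_pos _)]
      rw [one_mul] at hx
      have h3 : (x + 2) ^ 3 ≤ 27 * x ^ 3 := by
        have : x + 2 ≤ 3 * x := by linarith
        calc (x + 2) ^ 3 ≤ (3 * x) ^ 3 := pow_le_pow_left₀ (by linarith) this 3
          _ = _ := by ring
      have h5 : C4 * (x + 2) ^ 3 ≤ C4 * (27 * x ^ 3) := mul_le_mul_of_nonneg_left h3 hC40.le
      linarith
    have := ((t1.eventually_ge_atTop τ0).and ((t1.eventually_ge_atTop (R : ℝ)).and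
      ((t2.eventually_ge_atTop 1).and (t2.eventually ev)))).exists
    exact this
  set τ := Real.log T with hτ
  set L := Real.log τ with hL
  have hτ3 : 3 ≤ τ := hτ03.trans hTτ0
  have hT2 : 2 ≤ T := by
    by_contra h
    have h2 : (T : ℝ) ≤ 1 := by
      have : T ≤ 1 := by omega
      exact_mod_cast this
    have h3 : τ ≤ 0 := Real.log_nonpos (by positivity) h2
    linarith
  have hRle : (R : ℝ) ≤ τ ^ 2 + 1 := by nlinarith
  set Λ : ℕ := ⌈L⌉₊ + 1 with hΛ
  have hΛ1 : 1 ≤ Λ := by omega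
  have hΛ2 : L ≤ Λ := by
    have := Nat.le_ceil L
    rw [hΛ]; push_cast; linarith
  have hΛ3 : (Λ : ℝ) ≤ L + 2 := by
    have := Nat.ceil_lt_add_one (show 0 ≤ L by linarith)
    rw [hΛ]; push_cast; linarith
  -- bound for D
  have hDbound : ∀ M : ℕ, T ≤ M → LM (D T R κ) M ≤
      C4 * (Λ : ℝ) ^ 3 * (Real.log ((2 * M : ℕ) : ℝ) * Real.exp (-(2 * L))) := by
    intro M hM
    have hM2 : 2 ≤ M := hT2.trans hM
    have hlogM : 0 < Real.log ((2 * M : ℕ) : ℝ) := Real.log_pos (by exact_mod_cast (by omega : 1 < 2 * M))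
    refine (D_sum T R hT2 κ M).trans ?_
    have hterm : ∀ i ∈ (range (2 * M)).filter (fun i => T ^ (2 ^ i) ≤ 2 * M),
      2 * ((2 / 5 : ℝ) ^ (-(κ i)) * (3 / 4 : ℝ) ^ (-(κ i))) *
      ((∑ k ∈ (Icc 1 (2 * M)).filter (fun k => orough T k), (2 / 5 * (3 / 4) : ℝ) ^ Om T (T ^ (2 ^ i)) k / k) *
      (∑ x ∈ Qs T (T ^ (2 ^ i)) R, (2 / 5 : ℝ) ^ Om T (T ^ (2 ^ i)) x.1 * (3 / 4) ^ Om T (T ^ (2 ^ i)) x.2 *
        (2 / 5 * (3 / 4)) ^ Om T (T ^ (2 ^ i)) (x.1 + x.2) / ((x.2 : ℝ) * ((x.1 : ℝ) + x.2)))) ≤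
      (2 * Real.exp (K * (Real.log (5 / 2) + Real.log (4 / 3))) * C3 * (Λ : ℝ) ^ 3 *
        (Real.log ((2 * M : ℕ) : ℝ) * Real.exp (-(2 * L)))) *
        (((i : ℝ) + 1) ^ 2 * Real.exp (-(1 / 100 * i))) := by
      intro i hi
      rw [Finset.mem_filter] at hi
      have h1 := hE T R hTτ0 hRle Λ hΛ2 hΛ1 hΛ3 i (2 * M) hi.2
      have e1 : (2 / 5 : ℝ) ^ (-(κ i)) = Real.exp (κ i * Real.log (5 / 2)) := by
        rw [Real.rpow_def_of_pos (by norm_num), show (2 / 5 : ℝ) = (5 / 2)⁻¹ by norm_num, Real.log_inv]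
        congr 1; ring
      have e2 : (3 / 4 : ℝ) ^ (-(κ i)) = Real.exp (κ i * Real.log (4 / 3)) := by
        rw [Real.rpow_def_of_pos (by norm_num), show (3 / 4 : ℝ) = (4 / 3)⁻¹ by norm_num, Real.log_inv]
        congr 1; ring
      have hi0 : (0 : ℝ) ≤ i := by positivity
      have hu0 : (0 : ℝ) ≤ i * Real.log 2 := by positivity
      have hL0 : 0 ≤ L := by linarith
      rw [e1, e2]
      calc _ ≤ 2 * (Real.exp (κ i * Real.log (5 / 2)) * Real.exp (κ i * Real.log (4 / 3))) *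
          (C3 * Real.log ((2 * M : ℕ) : ℝ) * (Λ : ℝ) ^ 3 * ((i : ℝ) + 1) ^ 2 *
            Real.exp (-(2 * L) - 5 / 4 * (i * Real.log 2))) :=
            mul_le_mul_of_nonneg_left h1 (by positivity)
        _ = 2 * C3 * Real.log ((2 * M : ℕ) : ℝ) * (Λ : ℝ) ^ 3 * ((i : ℝ) + 1) ^ 2 * Real.exp (κ i * Real.log (5 / 2) + κ i * Real.log (4 / 3) +
            (-(2 * L) - 5 / 4 * (i * Real.log 2))) := by
            rw [Real.exp_add (κ i * Real.log (5 / 2) + κ i * Real.log (4 / 3)),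
              Real.exp_add (κ i * Real.log (5 / 2)) (κ i * Real.log (4 / 3))]
            ring
        _ ≤ 2 * C3 * Real.log ((2 * M : ℕ) : ℝ) * (Λ : ℝ) ^ 3 * ((i : ℝ) + 1) ^ 2 *
            Real.exp (K * (Real.log (5 / 2) + Real.log (4 / 3)) + -(2 * L) + -(1 / 100 * i)) := by
            apply mul_le_mul_of_nonneg_left _ (by positivity)
            apply Real.exp_le_exp.2
            have h5 : (i * Real.log 2) * Real.log (5 / 2) ≤ (i * Real.log 2) * (9163 / 10000) :=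
              mul_le_mul_of_nonneg_left log_a hu0
            have h6 : (i * Real.log 2) * Real.log (4 / 3) ≤ (i * Real.log 2) * (28769 / 100000) :=
              mul_le_mul_of_nonneg_left log_b hu0
            have h8 : (i : ℝ) * 0.6931471803 ≤ i * Real.log 2 := mul_le_mul_of_nonneg_left hl2a.le hi0
            have h9 : κ i = K + (1 + 1 / 100) * (i * Real.log 2) := rfl
            rw [h9]
            nlinarith
        _ = _ := by
            rw [Real.exp_add (K * (Real.log (5 / 2) + Real.log (4 / 3)) + -(2 * L)),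
              Real.exp_add (K * (Real.log (5 / 2) + Real.log (4 / 3)))]
            ring
    refine (Finset.sum_le_sum hterm).trans ?_
    rw [← Finset.mul_sum]
    have hsub : ∑ i ∈ (range (2 * M)).filter (fun i => T ^ (2 ^ i) ≤ 2 * M), ((i : ℝ) + 1) ^ 2 * Real.exp (-(1 / 100 * i)) ≤ G := by
      refine le_trans ?_ (hG (2 * M))
      apply Finset.sum_le_sum_of_subset_of_nonneg (Finset.filter_subset _ _)
      intro i _ _; positivity
    calc _ ≤ (2 * Real.exp (K * (Real.log (5 / 2) + Real.log (4 / 3))) * C3 * (Λ : ℝ) ^ 3 *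
        (Real.log ((2 * M : ℕ) : ℝ) * Real.exp (-(2 * L)))) * G :=
          mul_le_mul_of_nonneg_left hsub (by positivity)
      _ = _ := by rw [hC4]; ring
  -- final
  refine ⟨T, κ, c1 / 2 * Real.exp (-L), by positivity, c1 * Real.exp (-L) * Real.log (2 * T), ?_⟩
  intro M hM
  have hM' : (1 : ℝ) ≤ M := by exact_mod_cast hM
  have hT2' : (2 : ℝ) ≤ T := by exact_mod_cast hT2
  rcases Nat.lt_or_ge M T with hlt | hge
  · have h1 := LM_nonneg (A T R κ) M
    have h2 : Real.log M ≤ Real.log (2 * T) := by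
      apply Real.log_le_log (by linarith)
      have : (M : ℝ) ≤ T := by exact_mod_cast hlt.le
      linarith
    have hlog0 : 0 ≤ Real.log (2 * T) := Real.log_nonneg (by linarith)
    have h3 : 0 < c1 * Real.exp (-L) := by positivity
    have h4 := mul_le_mul_of_nonneg_left h2 (show 0 ≤ c1 / 2 * Real.exp (-L) by positivity)
    nlinarith
  · have hA := LM_WAD T R κ M
    have hD := hDbound M hge
    have hW2 := hK T M hτ3 hge
    rw [← hτ, ← hL] at hW2
    have hW3 : c1 * Real.exp (-L) * Real.log M ≤ LM (W T κ) M := by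
      rw [← LM_W_eq]
      refine le_trans (le_of_eq ?_) hW2
      have hexp : Real.exp (-L - C - 9 / 4) = Real.exp (-L) * Real.exp (-C - 9 / 4) := by
        rw [← Real.exp_add]; congr 1; ring
      rw [hexp, hc1]; ring
    have hΛ3' : (Λ : ℝ) ^ 3 ≤ (L + 2) ^ 3 := pow_le_pow_left₀ (by positivity) hΛ3 3
    have hsplit : Real.exp (-(2 * L)) = Real.exp (-L) * Real.exp (-L) := by
      rw [← Real.exp_add]; congr 1; ring
    have hlog2M : Real.log ((2 * M : ℕ) : ℝ) ≤ Real.log (2 * T) + Real.log M := by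
      rw [← Real.log_mul (by positivity) (by positivity)]
      apply Real.log_le_log (by positivity)
      push_cast
      nlinarith
    have hlogM : 0 ≤ Real.log M := Real.log_nonneg hM'
    have hlog0 : 0 ≤ Real.log (2 * T) := Real.log_nonneg (by linarith)
    have hDtot : LM (D T R κ) M ≤ c1 / 4 * Real.exp (-L) * (Real.log (2 * T) + Real.log M) := by
      calc LM (D T R κ) M ≤ C4 * (Λ : ℝ) ^ 3 * (Real.log ((2 * M : ℕ) : ℝ) * Real.exp (-(2 * L))) := hD
        _ = (C4 * (Λ : ℝ) ^ 3) * Real.exp (-L) * (Real.exp (-L) * Real.log ((2 * M : ℕ) : ℝ)) := by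
            rw [hsplit]; ring
        _ ≤ (C4 * (L + 2) ^ 3) * Real.exp (-L) * (Real.exp (-L) * (Real.log (2 * T) + Real.log M)) := by
            gcongr
        _ ≤ c1 / 4 * (Real.exp (-L) * (Real.log (2 * T) + Real.log M)) := by
            apply mul_le_mul_of_nonneg_right hTbig (by positivity)
        _ = _ := by ring
    have h3 : 0 < c1 * Real.exp (-L) := by positivity
    nlinarith [mul_nonneg h3.le hlogM, mul_nonneg h3.le hlog0]

end Pool.Agent.H392R2.Harm
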