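import Mathlib
import Pool.Agent.H392R2.Harm2

set_option autoImplicit false
set_option maxHeartbeats 4000000

namespace Pool.Agent.H392R2.Harm

open Finset Pool.Agent.Helper559

lemma primes_block : ∃ x0 : ℕ, ∀ x : ℕ, x0 ≤ x →
    (x : ℝ) / 4 ≤ (((Ioc (x / 8) x).filter Nat.Prime).card : ℝ) * Real.log x := by
  have hl2a := Real.log_two_gt_d9
  have ho := (isLittleO_log_rpow_atTop (r := 1 / 2) (by norm_num)).def (show (0 : ℝ) < 1 / 16 by norm_num)
  have hev : ∀ᶠ x : ℝ in Filter.atTop, Real.log (x + 1) + 2 * Real.sqrt x * Real.log x ≤ x / 4 := by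
    filter_upwards [ho, Filter.eventually_ge_atTop 16] with x hx hx1
    have hl : 0 ≤ Real.log x := Real.log_nonneg (by linarith)
    have hs : 0 ≤ Real.sqrt x := Real.sqrt_nonneg x
    rw [Real.norm_of_nonneg hl, ← Real.sqrt_eq_rpow, Real.norm_of_nonneg hs] at hx
    have hss : Real.sqrt x * Real.sqrt x = x := Real.mul_self_sqrt (by linarith)
    have h1 : Real.log (x + 1) ≤ Real.log 2 + Real.log x := by
      rw [← Real.log_mul (by norm_num) (by linarith)]
      apply Real.log_le_log (by linarith); linarith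
    have h2 : Real.sqrt x ≤ x / 4 := by
      have : 4 ≤ Real.sqrt x := by
        rw [show (4 : ℝ) = Real.sqrt 16 by rw [show (16 : ℝ) = 4 ^ 2 by norm_num]; simp]
        exact Real.sqrt_le_sqrt hx1
      nlinarith
    have h3 : 2 * Real.sqrt x * Real.log x ≤ 2 * Real.sqrt x * (1 / 16 * Real.sqrt x) :=
      mul_le_mul_of_nonneg_left hx (by positivity)
    have hl2b := Real.log_two_lt_d9
    nlinarith
  have hevn := tendsto_natCast_atTop_atTop.eventually (hev.and (Filter.eventually_ge_atTop 2))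
  obtain ⟨x0, hx0⟩ := Filter.eventually_atTop.1 hevn
  refine ⟨x0, ?_⟩
  intro x hx
  obtain ⟨h1, hx2⟩ := hx0 x hx
  have hθ1 := Chebyshev.theta_ge x
  have hθ2 := Chebyshev.theta_le_log4_mul_x (x := ((x / 8 : ℕ) : ℝ)) (by positivity)
  have hlog4 : Real.log 4 = 2 * Real.log 2 := by
    rw [show (4 : ℝ) = 2 ^ 2 by norm_num, Real.log_pow]; norm_num
  have hdiv : ((x / 8 : ℕ) : ℝ) ≤ (x : ℝ) / 8 := by
    have := @Nat.cast_div_le ℝ _ _ _ x 8
    exact_mod_cast this
  have hlx : 0 ≤ Real.log x := Real.log_nonneg (by linarith)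
  have hsplit : Chebyshev.theta x = Chebyshev.theta ((x / 8 : ℕ) : ℝ) +
      ∑ p ∈ (Ioc (x / 8) x).filter Nat.Prime, Real.log p := by
    rw [Chebyshev.theta, Chebyshev.theta, Nat.floor_natCast, Nat.floor_natCast,
      Finset.sum_filter, Finset.sum_filter, Finset.sum_filter,
      Finset.sum_Ioc_consecutive _ (Nat.zero_le _) (Nat.div_le_self _ _)]
  have hcard : ∑ p ∈ (Ioc (x / 8) x).filter Nat.Prime, Real.log p ≤
      (((Ioc (x / 8) x).filter Nat.Prime).card : ℝ) * Real.log x := by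
    rw [← nsmul_eq_mul]
    apply Finset.sum_le_card_nsmul
    intro p hp
    rw [Finset.mem_filter, Finset.mem_Ioc] at hp
    apply Real.log_le_log
    · exact_mod_cast hp.2.pos
    · exact_mod_cast hp.1.2
  have hx0' : (0 : ℝ) ≤ x := by positivity
  have h5 : Real.log 4 * ((x / 8 : ℕ) : ℝ) ≤ 2 * Real.log 2 * (x / 8) := by
    rw [hlog4]
    exact mul_le_mul_of_nonneg_left hdiv (by linarith)
  have h6 : (x : ℝ) * 0.6931471803 ≤ x * Real.log 2 := mul_le_mul_of_nonneg_left hl2a.le hx0'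
  linarith

/-- The union of the sets `p * A`, `p` a large prime, inside the window `(N/8, N]`. -/
def Bset (A : Set ℕ) (N : ℕ) : Set ℕ :=
  {n | n ≤ N ∧ N < n * 8 ∧ ∃ p b : ℕ, p.Prime ∧ 2 * N < p ^ 2 ∧ b ∈ A ∧ 0 < b ∧ n = p * b}

lemma small_cofactor {N p b : ℕ} (hp : 2 * N < p ^ 2) (h : p * b ≤ N) : 2 * b < p := by
  by_contra hcon
  push Not at hcon
  have : p ^ 2 ≤ 2 * N := by
    calc p ^ 2 = p * p := by ring
      _ ≤ p * (2 * b) := Nat.mul_le_mul_left p hcon
      _ = 2 * (p * b) := by ring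
      _ ≤ 2 * N := by omega
  omega

lemma Bset_adm (A : Set ℕ) (hA : ∀ a ∈ A, ∀ b ∈ A, a ≠ b → a ≤ 8 * b → b ≤ 8 * a → ¬ (a + b ∣ 2 * a * b))
    (N : ℕ) : ∀ a ∈ Bset A N, ∀ b ∈ Bset A N, a ≠ b → ¬ (a + b ∣ 2 * a * b) := by
  rintro n ⟨hnN, hnw, p, b, hp, hpN, hbA, hb0, rfl⟩ n' ⟨hnN', hnw', p', b', hp', hpN', hbA', hb0', rfl⟩ hne hdvd
  have h1 := small_cofactor hpN hnN
  have h2 := small_cofactor hpN' hnN'
  by_cases hpp : p = p'
  · subst hpp
    have hbb : b ≠ b' := fun h => hne (by rw [h])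
    have hp0 := hp.pos
    have e1 : b ≤ 8 * b' := by
      have : p * b ≤ p * (8 * b') := by
        calc p * b ≤ N := hnN
          _ ≤ p * b' * 8 := hnw'.le
          _ = p * (8 * b') := by ring
      exact Nat.le_of_mul_le_mul_left this hp0
    have e2 : b' ≤ 8 * b := by
      have : p * b' ≤ p * (8 * b) := by
        calc p * b' ≤ N := hnN'
          _ ≤ p * b * 8 := hnw.le
          _ = p * (8 * b) := by ring
      exact Nat.le_of_mul_le_mul_left this hp0
    apply hA b hbA b' hbA' hbb e1 e2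
    have e3 : p * (b + b') ∣ p * (p * (2 * b * b')) := by
      have : p * b + p * b' = p * (b + b') := by ring
      rw [← this]
      have h4 : 2 * (p * b) * (p * b') = p * (p * (2 * b * b')) := by ring
      rw [← h4]; exact hdvd
    have e4 : b + b' ∣ p * (2 * b * b') := Nat.dvd_of_mul_dvd_mul_left hp0 e3
    have hco : Nat.Coprime (b + b') p := by
      rw [Nat.coprime_comm, hp.coprime_iff_not_dvd]
      intro h
      have := Nat.le_of_dvd (by omega) h
      omega
    exact hco.dvd_of_dvd_mul_left e4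
  · -- distinct primes
    have hbp' : b < p' := by
      by_contra hcon
      push Not at hcon
      have h5 : p' * p' ≤ p * b := by nlinarith
      have h6 : p' ^ 2 = p' * p' := by ring
      omega
    have hb'p : b' < p := by
      by_contra hcon
      push Not at hcon
      have h5 : p * p ≤ p' * b' := by nlinarith
      have h6 : p ^ 2 = p * p := by ring
      omega
    have hco1 : Nat.Coprime (p * b + p' * b') p := by
      rw [Nat.coprime_comm, hp.coprime_iff_not_dvd]
      intro h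
      have h3 : p ∣ p' * b' := (Nat.dvd_add_right (Dvd.intro b rfl)).1 h
      rcases (hp.dvd_mul).1 h3 with h4 | h4
      · exact hpp ((Nat.prime_dvd_prime_iff_eq hp hp').1 h4)
      · have := Nat.le_of_dvd hb0' h4; omega
    have hco2 : Nat.Coprime (p * b + p' * b') p' := by
      rw [Nat.coprime_comm, hp'.coprime_iff_not_dvd]
      intro h
      have h3 : p' ∣ p * b := (Nat.dvd_add_left (Dvd.intro b' rfl)).1 h
      rcases (hp'.dvd_mul).1 h3 with h4 | h4
      · exact hpp ((Nat.prime_dvd_prime_iff_eq hp' hp).1 h4).symm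
      · have := Nat.le_of_dvd hb0 h4; omega
    have e1 : p * b + p' * b' ∣ p * (p' * (2 * b * b')) := by
      have : 2 * (p * b) * (p' * b') = p * (p' * (2 * b * b')) := by ring
      rw [← this]; exact hdvd
    have e2 := hco2.dvd_of_dvd_mul_left (hco1.dvd_of_dvd_mul_left e1)
    have e3 := Nat.le_of_dvd (by positivity) e2
    -- 2 b b' < p b
    have e4 : 2 * b * b' ≤ p * b := by
      have : 2 * b * b' = b * (2 * b') := by ring
      rw [this, mul_comm p b]
      apply Nat.mul_le_mul_left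
      -- 2 b' ≤ p
      by_contra hcon
      push Not at hcon
      -- p < 2 b' , 2 b' < p'
      have : 2 * b < b' ∨ b' ≤ 2 * b := by omega
      have h7 : p * p' < 2 * (p' * b') := by nlinarith
      have h8 : p * p' < 2 * N := by omega
      have h9 : p * p ≤ 2 * N ∨ p' * p' ≤ 2 * N := by
        rcases le_total p p' with h | h
        · left; nlinarith
        · right; nlinarith
      have h10 : p ^ 2 = p * p := by ring
      have h11 : p' ^ 2 = p' * p' := by ring
      omega
    have : 0 < p' * b' := Nat.mul_pos hp'.pos hb0'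
    omega

open scoped Classical in
lemma Bset_card (A : Set ℕ) (N Y x0 : ℕ) (hx0 : ∀ x : ℕ, x0 ≤ x →
    (x : ℝ) / 4 ≤ (((Ioc (x / 8) x).filter Nat.Prime).card : ℝ) * Real.log x)
    (hY : 2 * (8 * Y + 8) ^ 2 ≤ N) (hYx : x0 * Y ≤ N) (hN : 2 ≤ N) :
    (N : ℝ) / 8 * LM A Y ≤ (((Icc 1 N).filter (fun n => n ∈ Bset A N)).card : ℝ) * Real.log N := by
  have hlogN : 0 < Real.log N := Real.log_pos (by exact_mod_cast (by omega : 1 < N))
  -- pairs
  set P : Finset (ℕ × ℕ) := ((Icc 1 Y).filter (fun b => b ∈ A)).biUnion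
    (fun b => (((Ioc (N / b / 8) (N / b)).filter Nat.Prime).image (fun p => (b, p)))) with hP
  have hmem : ∀ x ∈ P, x.1 ∈ A ∧ 1 ≤ x.1 ∧ x.1 ≤ Y ∧ x.2.Prime ∧ x.2 * x.1 ≤ N ∧ N < x.2 * x.1 * 8 ∧ 2 * N < x.2 ^ 2 := by
    intro x hx
    rw [hP, Finset.mem_biUnion] at hx
    obtain ⟨b, hb, hx⟩ := hx
    rw [Finset.mem_filter, Finset.mem_Icc] at hb
    rw [Finset.mem_image] at hx
    obtain ⟨p, hp, rfl⟩ := hx
    rw [Finset.mem_filter, Finset.mem_Ioc] at hp
    have hb0 : 0 < b := by omega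
    have h1 : p * b ≤ N := (Nat.le_div_iff_mul_le hb0).1 hp.1.2
    have h2 : N < p * b * 8 := by
      have h3 : N / (b * 8) < p := by rw [← Nat.div_div_eq_div_mul]; exact hp.1.1
      have h4 := (Nat.div_lt_iff_lt_mul (by omega)).1 h3
      calc N < p * (b * 8) := h4
        _ = p * b * 8 := by ring
    refine ⟨hb.2, hb.1.1, hb.1.2, hp.2, h1, h2, ?_⟩
    -- N < p * (8 b) ≤ p * 8Y ; so N^2 < p^2 (8Y)^2 ≤ p^2 N / 2
    have h5 : N < p * (8 * Y + 8) := by
      calc N < p * b * 8 := h2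
        _ = p * (8 * b) := by ring
        _ ≤ p * (8 * Y + 8) := Nat.mul_le_mul_left p (by omega)
    have h6 : N * N < (p * (8 * Y + 8)) * (p * (8 * Y + 8)) := Nat.mul_lt_mul'' h5 h5
    have h7 : 2 * (N * N) < p ^ 2 * N := by
      calc 2 * (N * N) < 2 * ((p * (8 * Y + 8)) * (p * (8 * Y + 8))) := by omega
        _ = p ^ 2 * (2 * (8 * Y + 8) ^ 2) := by ring
        _ ≤ p ^ 2 * N := Nat.mul_le_mul_left _ hY
    have h8 : (2 * N) * N < p ^ 2 * N := by
      calc (2 * N) * N = 2 * (N * N) := by ring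
        _ < _ := h7
    exact Nat.lt_of_mul_lt_mul_right h8
  have hcardP : P.card ≤ ((Icc 1 N).filter (fun n => n ∈ Bset A N)).card := by
    apply Finset.card_le_card_of_injOn (fun x => x.2 * x.1)
    · intro x hx
      obtain ⟨h1, h2, h3, h4, h5, h6, h7⟩ := hmem x hx
      simp only [Finset.coe_filter, Set.mem_ofPred_eq, Finset.mem_Icc]
      refine ⟨⟨?_, h5⟩, h5, h6, x.2, x.1, h4, h7, h1, h2, rfl⟩
      exact Nat.mul_pos h4.pos h2
    · intro x hx y hy hxy
      obtain ⟨h1, h2, h3, h4, h5, h6, h7⟩ := hmem x hx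
      obtain ⟨g1, g2, g3, g4, g5, g6, g7⟩ := hmem y hy
      simp only at hxy
      have hs := small_cofactor h7 h5
      have hs' := small_cofactor g7 g5
      have hp : x.2 = y.2 := by
        have hd : y.2 ∣ x.2 * x.1 := hxy ▸ Dvd.intro _ rfl
        rcases (g4.dvd_mul).1 hd with h | h
        · exact ((Nat.prime_dvd_prime_iff_eq g4 h4).1 h).symm
        · have h8 := Nat.le_of_dvd h2 h
          have h9 : y.2 ^ 2 ≤ x.2 * x.1 := by nlinarith
          omega
      have hb : x.1 = y.1 := by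
        rw [hp] at hxy
        exact Nat.eq_of_mul_eq_mul_left g4.pos hxy
      exact Prod.ext hb hp
  have hPcard : (P.card : ℝ) = ∑ b ∈ (Icc 1 Y).filter (fun b => b ∈ A),
      (((Ioc (N / b / 8) (N / b)).filter Nat.Prime).card : ℝ) := by
    rw [hP, Finset.card_biUnion]
    · push_cast
      apply Finset.sum_congr rfl
      intro b _
      rw [Finset.card_image_of_injective]
      intro p q h
      exact (Prod.mk.inj h).2
    · intro b _ b' _ hbb
      rw [Function.onFun, Finset.disjoint_left]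
      intro x hx hx'
      rw [Finset.mem_image] at hx hx'
      obtain ⟨p, _, rfl⟩ := hx
      obtain ⟨q, _, h⟩ := hx'
      exact hbb (Prod.mk.inj h).1.symm
  have hterm : ∀ b ∈ (Icc 1 Y).filter (fun b => b ∈ A),
      (N : ℝ) / 8 * (1 / b) ≤ (((Ioc (N / b / 8) (N / b)).filter Nat.Prime).card : ℝ) * Real.log N := by
    intro b hb
    rw [Finset.mem_filter, Finset.mem_Icc] at hb
    have hb0 : 0 < b := by omega
    have hbR : (0 : ℝ) < b := by exact_mod_cast hb0
    have h1 : x0 ≤ N / b := by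
      rw [Nat.le_div_iff_mul_le hb0]
      exact (Nat.mul_le_mul_left x0 hb.1.2).trans hYx
    have h2 := hx0 (N / b) h1
    have hbN : b ≤ N := by nlinarith
    have h3 : (N : ℝ) / (2 * b) ≤ ((N / b : ℕ) : ℝ) := by
      have h4 : N < b * (N / b + 1) := Nat.lt_mul_div_succ N hb0
      have h5 : 1 ≤ N / b := by rw [Nat.le_div_iff_mul_le hb0]; omega
      have h6 : N ≤ b * (2 * (N / b)) := by nlinarith
      rw [div_le_iff₀ (by positivity)]
      have h7 : (N : ℝ) ≤ b * (2 * ((N / b : ℕ) : ℝ)) := by exact_mod_cast h6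
      linarith
    have h5 : 1 ≤ N / b := by rw [Nat.le_div_iff_mul_le hb0]; omega
    have h8 : Real.log ((N / b : ℕ) : ℝ) ≤ Real.log N := by
      apply Real.log_le_log (by exact_mod_cast h5)
      exact_mod_cast Nat.div_le_self N b
    calc (N : ℝ) / 8 * (1 / b) = (N : ℝ) / (2 * b) / 4 := by field_simp; norm_num
      _ ≤ ((N / b : ℕ) : ℝ) / 4 := by linarith
      _ ≤ _ := h2
      _ ≤ _ := mul_le_mul_of_nonneg_left h8 (by positivity)
  calc (N : ℝ) / 8 * LM A Y = ∑ b ∈ (Icc 1 Y).filter (fun b => b ∈ A), (N : ℝ) / 8 * (1 / b) := by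
        rw [LM, Finset.mul_sum]
    _ ≤ ∑ b ∈ (Icc 1 Y).filter (fun b => b ∈ A),
      (((Ioc (N / b / 8) (N / b)).filter Nat.Prime).card : ℝ) * Real.log N := Finset.sum_le_sum hterm
    _ = (P.card : ℝ) * Real.log N := by rw [← Finset.sum_mul, hPcard]
    _ ≤ _ := mul_le_mul_of_nonneg_right (by exact_mod_cast hcardP) hlogN.le

theorem strong : ∃ c : ℝ, 0 < c ∧ ∀ N : ℕ, ∃ B : Finset ℕ, B ⊆ Icc 1 N ∧
    (∀ a ∈ B, ∀ b ∈ B, a ≠ b → ¬ (a + b ∣ 2 * a * b)) ∧ c * N ≤ B.card := by
  classical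
  obtain ⟨T, κ, c, hc0, C, hC⟩ := main_bound 8
  obtain ⟨x0, hx0⟩ := primes_block
  set S := A T 8 κ with hS
  have hadm := A_adm T 8 κ
  rw [← hS] at hadm
  -- large N
  have hlarge : ∃ N0 : ℕ, 2 ≤ N0 ∧ ∀ N : ℕ, N0 ≤ N →
      c / 64 * N ≤ (((Icc 1 N).filter (fun n => n ∈ Bset S N)).card : ℝ) := by
    have hlim : Filter.Tendsto (fun N : ℕ => Real.log (N : ℝ)) Filter.atTop Filter.atTop :=
      Real.tendsto_log_atTop.comp tendsto_natCast_atTop_atTop
    have hev := (hlim.eventually_ge_atTop (4 * ((c * (Real.log 64) + |C|) / c))).and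
      (Filter.eventually_ge_atTop ((x0 + 305) ^ 2))
    obtain ⟨N0, hN0⟩ := Filter.eventually_atTop.1 hev
    refine ⟨max N0 2, le_max_right _ _, ?_⟩
    intro N hN
    obtain ⟨h1, h2⟩ := hN0 N ((le_max_left _ _).trans hN)
    obtain ⟨q, hq1, hq2⟩ : ∃ q : ℕ, q * q ≤ N ∧ N < (q + 1) * (q + 1) :=
      ⟨Nat.sqrt N, Nat.sqrt_le N, Nat.lt_succ_sqrt N⟩
    have hqx : x0 + 305 ≤ q := by
      by_contra h
      push Not at h
      have h5 : q + 1 ≤ x0 + 305 := h
      have h6 := Nat.mul_le_mul h5 h5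
      have h7 : (x0 + 305) ^ 2 = (x0 + 305) * (x0 + 305) := sq _
      rw [h7] at h2
      exact absurd (hq2.trans_le h6) (not_lt.2 h2)
    clear h2
    have hq300 : 300 ≤ q := by omega
    have hx0q : x0 ≤ q := by omega
    obtain ⟨Y, hY⟩ : ∃ Y : ℕ, Y = q / 16 := ⟨_, rfl⟩
    have hY16 : 16 * Y ≤ q := by rw [hY]; exact Nat.mul_div_le q 16
    have hYlow : q < 16 * Y + 16 := by omega
    have hY18 : 18 ≤ Y := by omega
    have hN2' : 2 ≤ N := by nlinarith
    have hb := Bset_card S N Y x0 hx0 (by nlinarith) (by nlinarith) hN2'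
    have hY1 : 1 ≤ Y := by omega
    have hCY := hC Y hY1
    have hN0' : (0 : ℝ) < N := by exact_mod_cast (lt_of_lt_of_le (by norm_num) hN2')
    have hlogN : 0 < Real.log N := Real.log_pos (by exact_mod_cast (lt_of_lt_of_le (by norm_num) hN2' : 1 < N))
    -- log Y lower bound
    have hlogY : Real.log N / 2 - Real.log 64 ≤ Real.log Y := by
      have h5 : (N : ℝ) ≤ (64 * Y) ^ 2 := by
        have : N ≤ (64 * Y) ^ 2 := by nlinarith
        exact_mod_cast this
      have h6 := Real.log_le_log hN0' h5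
      rw [Real.log_pow, Real.log_mul (by norm_num) (by positivity)] at h6
      push_cast at h6
      linarith
    have h7 : c * Real.log Y - C ≥ c / 4 * Real.log N := by
      have h8 := mul_le_mul_of_nonneg_left hlogY hc0.le
      have h9 : 4 * (c * Real.log 64 + |C|) ≤ c * Real.log N := by
        have := mul_le_mul_of_nonneg_left h1 hc0.le
        have e : c * (4 * ((c * (Real.log 64) + |C|) / c)) = 4 * (c * Real.log 64 + |C|) := by
          field_simp
        rw [e] at this
        exact this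
      have h10 := le_abs_self C
      nlinarith
    have h8 : (N : ℝ) / 8 * (c / 4 * Real.log N) ≤ (((Icc 1 N).filter (fun n => n ∈ Bset S N)).card : ℝ) * Real.log N := by
      refine le_trans ?_ hb
      apply mul_le_mul_of_nonneg_left _ (by positivity)
      linarith
    have h9 : (N : ℝ) / 8 * (c / 4) * Real.log N ≤ (((Icc 1 N).filter (fun n => n ∈ Bset S N)).card : ℝ) * Real.log N := by
      linarith
    have h10 := le_of_mul_le_mul_right h9 hlogN
    have h11 : 0 ≤ c * N := by positivity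
    linarith
  obtain ⟨N0, hN02, hN0⟩ := hlarge
  refine ⟨min (c / 64) (1 / N0), lt_min (by positivity) (by positivity), ?_⟩
  intro N
  have hNn : (0 : ℝ) ≤ N := by positivity
  rcases Nat.lt_or_ge N N0 with h | h
  · rcases Nat.eq_zero_or_pos N with h0 | h0
    · refine ⟨∅, by simp, by simp, ?_⟩
      rw [h0]; simp
    · refine ⟨{1}, ?_, ?_, ?_⟩
      · intro x hx
        rw [Finset.mem_singleton] at hx
        rw [hx, Finset.mem_Icc]; omega
      · intro a ha b hb hab
        rw [Finset.mem_singleton] at ha hb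
        exact absurd (ha.trans hb.symm) hab
      · have h1 : min (c / 64) (1 / (N0 : ℝ)) * N ≤ 1 / N0 * N :=
          mul_le_mul_of_nonneg_right (min_le_right _ _) hNn
        have h2 : (1 : ℝ) / N0 * N ≤ 1 := by
          rw [one_div, inv_mul_le_one₀ (by exact_mod_cast (by omega : 0 < N0))]
          exact_mod_cast h.le
        simp only [Finset.card_singleton, Nat.cast_one]
        linarith
  · refine ⟨(Icc 1 N).filter (fun n => n ∈ Bset S N), Finset.filter_subset _ _, ?_, ?_⟩
    · intro a ha b hb hab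
      rw [Finset.mem_filter] at ha hb
      exact Bset_adm S hadm N a ha.2 b hb.2 hab
    · exact (mul_le_mul_of_nonneg_right (min_le_left _ _) hNn).trans (hN0 N h)

end Pool.Agent.H392R2.Harm
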