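import Pool.Agent.H626R2.Loc.ODefs

/-! Task O1 of the project of helper626. -/

set_option autoImplicit false

namespace Pool.Agent.H626R2.Loc

open MvPolynomial

section occ

variable {K : Type} [Field K] {n : ℕ}

/-- O0. polynomials without alive variables -/
theorem ren_dead {r : ℕ} (s : Fin r → Fin n) (f : MvPolynomial (Fin n) K)
    (hf : ∀ b, s b ∉ f.vars) : ren s f = C f := by
  have h := MvPolynomial.hom_congr_vars
    (f₁ := ((ren s : MvPolynomial (Fin n) K →ₐ[K] _) : MvPolynomial (Fin n) K →+* _))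
    (f₂ := (C : MvPolynomial (Fin n) K →+* MvPolynomial (Fin r) (MvPolynomial (Fin n) K)))
    (p₁ := f) (p₂ := f) ?_ ?_ rfl
  · exact h
  · ext x : 1
    have h2 : (ren s) (C x : MvPolynomial (Fin n) K) =
        algebraMap K (MvPolynomial (Fin r) (MvPolynomial (Fin n) K)) x := by
      rw [← MvPolynomial.algebraMap_eq]
      exact AlgHom.commutes _ _
    simp only [RingHom.comp_apply, RingHom.coe_coe]
    rw [h2]
    rfl
  · intro i hi _
    simp only [RingHom.coe_coe]
    rw [ren, aeval_X, dif_neg]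
    rintro ⟨b, rfl⟩
    exact hf b hi

namespace O1

/-- all coefficients in a subalgebra -/
def CoefIn {r : ℕ} (B : Subalgebra K (MvPolynomial (Fin n) K))
    (P : MvPolynomial (Fin r) (MvPolynomial (Fin n) K)) : Prop := ∀ m, P.coeff m ∈ B

theorem CoefIn.c {r : ℕ} {B : Subalgebra K (MvPolynomial (Fin n) K)}
    {b : MvPolynomial (Fin n) K} (hb : b ∈ B) :
    CoefIn B (C b : MvPolynomial (Fin r) (MvPolynomial (Fin n) K)) := by
  classical
  intro m
  rw [coeff_C]
  split_ifs
  · exact hb
  · exact B.zero_mem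

theorem CoefIn.add {r : ℕ} {B : Subalgebra K (MvPolynomial (Fin n) K)}
    {P Q : MvPolynomial (Fin r) (MvPolynomial (Fin n) K)} (hP : CoefIn B P) (hQ : CoefIn B Q) :
    CoefIn B (P + Q) := by
  intro m
  rw [coeff_add]
  exact B.add_mem (hP m) (hQ m)

theorem CoefIn.mul {r : ℕ} {B : Subalgebra K (MvPolynomial (Fin n) K)}
    {P Q : MvPolynomial (Fin r) (MvPolynomial (Fin n) K)} (hP : CoefIn B P) (hQ : CoefIn B Q) :
    CoefIn B (P * Q) := by
  classical
  intro m
  rw [coeff_mul]
  exact B.sum_mem fun x _ => B.mul_mem (hP _) (hQ _)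

theorem CoefIn.pow {r : ℕ} {B : Subalgebra K (MvPolynomial (Fin n) K)}
    {P : MvPolynomial (Fin r) (MvPolynomial (Fin n) K)} (hP : CoefIn B P) (e : ℕ) :
    CoefIn B (P ^ e) := by
  induction e with
  | zero =>
    rw [pow_zero, ← C_1]
    exact CoefIn.c B.one_mem
  | succ e ih =>
    rw [pow_succ]
    exact ih.mul hP

theorem CoefIn.sum {r : ℕ} {B : Subalgebra K (MvPolynomial (Fin n) K)} {ι : Type}
    (t : Finset ι) {P : ι → MvPolynomial (Fin r) (MvPolynomial (Fin n) K)}
    (hP : ∀ i ∈ t, CoefIn B (P i)) : CoefIn B (∑ i ∈ t, P i) := by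
  classical
  intro m
  rw [coeff_sum]
  exact B.sum_mem fun x hx => hP x hx m

theorem CoefIn.prod {r : ℕ} {B : Subalgebra K (MvPolynomial (Fin n) K)} {ι : Type}
    (t : Finset ι) {P : ι → MvPolynomial (Fin r) (MvPolynomial (Fin n) K)}
    (hP : ∀ i ∈ t, CoefIn B (P i)) : CoefIn B (∏ i ∈ t, P i) := by
  classical
  induction t using Finset.induction_on with
  | empty =>
    rw [Finset.prod_empty, ← C_1]
    exact CoefIn.c B.one_mem
  | insert i t hi ih =>
    rw [Finset.prod_insert hi]
    exact (hP i (Finset.mem_insert_self _ _)).mul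
      (ih fun j hj => hP j (Finset.mem_insert_of_mem hj))

theorem subset_occ' {S : Set (MvPolynomial (Fin n) K)} {c : ℕ} (hc : 1 ≤ c) : S ⊆ Occ c S := by
  intro σ hσ
  refine ⟨1, 1, fun _ => 1, fun _ _ => σ, fun _ _ => 1, fun _ _ => hσ, fun m => ?_, by simp⟩
  refine (Set.ncard_le_card _).trans ?_
  simpa using hc

end O1

open O1 in
/-- O1 (uses O0). -/
theorem coefFin_occ {S : Set (MvPolynomial (Fin n) K)} {k c c' : ℕ} (hc : 1 ≤ c)
    (hS : CoefFin S k c') : CoefFin (Occ c S) k (1 + k * c + k * c * c') := by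
  classical
  intro r hr s hs σ hσ
  obtain ⟨N, I, a, g, e, hg, hocc, rfl⟩ := hσ
  choose U hU using fun (l : Fin N) (i : Fin I) => hS r hr s hs (g l i) (hg l i)
  obtain ⟨A, hA⟩ : ∃ A : Finset (Fin N × Fin I),
      A = Finset.univ.filter (fun li => ∃ b, s b ∈ (g li.1 li.2).vars) := ⟨_, rfl⟩
  have hAmem : ∀ l i, (l, i) ∈ A ↔ ∃ b, s b ∈ (g l i).vars := by
    intro l i
    rw [hA]
    simp
  have hAcard : A.card ≤ k * c := by
    have h1 : A ⊆ (Finset.univ : Finset (Fin r)).biUnion
        (fun b => Finset.univ.filter (fun li : Fin N × Fin I => s b ∈ (g li.1 li.2).vars)) := by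
      rintro ⟨l, i⟩ hli
      obtain ⟨b, hb⟩ := (hAmem l i).1 hli
      simp only [Finset.mem_biUnion, Finset.mem_univ, true_and, Finset.mem_filter]
      exact ⟨b, hb⟩
    calc A.card ≤ _ := Finset.card_le_card h1
      _ ≤ _ := Finset.card_biUnion_le
      _ ≤ ∑ _b : Fin r, c := by
        refine Finset.sum_le_sum fun b _ => ?_
        have h2 := hocc (s b)
        rw [← Set.ncard_coe_finset]
        refine le_trans (le_of_eq ?_) h2
        congr 1
        ext li
        simp
      _ = r * c := by simp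
      _ ≤ k * c := Nat.mul_le_mul_right _ hr
  obtain ⟨AL, hAL⟩ : ∃ AL : Finset (Fin N), AL = A.image Prod.fst := ⟨_, rfl⟩
  have hALcard : AL.card ≤ k * c := by
    rw [hAL]
    exact Finset.card_image_le.trans hAcard
  have hALmem : ∀ l ∉ AL, ∀ i, (l, i) ∉ A := by
    intro l hl i hli
    apply hl
    rw [hAL]
    exact Finset.mem_image.2 ⟨(l, i), hli, rfl⟩
  obtain ⟨D0, hD0⟩ : ∃ D0 : MvPolynomial (Fin n) K,
      D0 = ∑ l, C (if l ∈ AL then 0 else a l) * ∏ i, g l i ^ e l i := ⟨_, rfl⟩
  obtain ⟨D, hD⟩ : ∃ D : Fin N → MvPolynomial (Fin n) K,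
      D = fun l => ∏ i, g l i ^ (if (l, i) ∈ A then 0 else e l i) := ⟨_, rfl⟩
  have hD0mem : D0 ∈ Occ c S := ⟨N, I, _, g, e, hg, hocc, hD0⟩
  have hDmem : ∀ l, D l ∈ Occ c S := by
    intro l
    refine ⟨N, I, fun l' => if l' = l then 1 else 0, g,
      fun l' i => if (l', i) ∈ A then 0 else e l' i, hg, hocc, ?_⟩
    rw [Finset.sum_eq_single l]
    · rw [hD]
      simp
    · intro l' _ hl'
      beta_reduce
      rw [if_neg hl', C_0, zero_mul]
    · intro h
      exact absurd (Finset.mem_univ _) h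
  refine ⟨{D0} ∪ AL.image D ∪ A.biUnion (fun li => U li.1 li.2), ?_, ?_, ?_⟩
  · refine (Finset.card_union_le _ _).trans ?_
    refine Nat.add_le_add ((Finset.card_union_le _ _).trans ?_) ?_
    · rw [Finset.card_singleton]
      exact Nat.add_le_add_left (Finset.card_image_le.trans hALcard) _
    · refine Finset.card_biUnion_le.trans ?_
      calc ∑ li ∈ A, (U li.1 li.2).card ≤ ∑ _li ∈ A, c' :=
            Finset.sum_le_sum fun li _ => (hU li.1 li.2).1
        _ = A.card * c' := by simp
        _ ≤ k * c * c' := Nat.mul_le_mul_right _ hAcard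
  · intro f hf
    simp only [Finset.mem_union, Finset.mem_singleton, Finset.mem_image, Finset.mem_biUnion] at hf
    rcases hf with (rfl | ⟨l, _, rfl⟩) | ⟨li, _, hli⟩
    · exact hD0mem
    · exact hDmem l
    · exact subset_occ' hc ((hU li.1 li.2).2.1 f hli)
  · obtain ⟨W, hW⟩ : ∃ W : Finset (MvPolynomial (Fin n) K),
        W = {D0} ∪ AL.image D ∪ A.biUnion (fun li => U li.1 li.2) := ⟨_, rfl⟩
    rw [← hW]
    have hB0 : D0 ∈ Algebra.adjoin K (W : Set (MvPolynomial (Fin n) K)) := by
      apply Algebra.subset_adjoin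
      rw [hW]
      simp
    have hBl : ∀ l ∈ AL, D l ∈ Algebra.adjoin K (W : Set (MvPolynomial (Fin n) K)) := by
      intro l hl
      apply Algebra.subset_adjoin
      rw [hW]
      simp only [Finset.coe_union, Finset.coe_singleton, Finset.coe_image, Set.mem_union,
        Set.mem_image, Finset.mem_coe]
      exact Or.inl (Or.inr ⟨l, hl, rfl⟩)
    have hBU : ∀ l i, (l, i) ∈ A → CoefIn (Algebra.adjoin K (W : Set (MvPolynomial (Fin n) K)))
        (ren s (g l i)) := by
      intro l i hli m
      refine Algebra.adjoin_mono ?_ ((hU l i).2.2 m)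
      intro f hf
      rw [hW]
      simp only [Finset.coe_union, Finset.coe_biUnion, Set.mem_union, Set.mem_iUnion,
        Finset.mem_coe]
      exact Or.inr ⟨(l, i), hli, hf⟩
    change CoefIn (Algebra.adjoin K (W : Set (MvPolynomial (Fin n) K))) _
    have hC : ∀ x : K, ren s (C x : MvPolynomial (Fin n) K) =
        C (C x : MvPolynomial (Fin n) K) := by
      intro x
      exact ren_dead s _ (by simp)
    have key : ren s (∑ l, C (a l) * ∏ i, g l i ^ e l i) =
        C D0 + ∑ l ∈ AL, C (C (a l)) * C (D l) *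
          ∏ i, (if (l, i) ∈ A then ren s (g l i) ^ e l i else 1) := by
      have h1 : ∀ l, ren s (C (a l) * ∏ i, g l i ^ e l i) =
          C (C (if l ∈ AL then 0 else a l) * ∏ i, g l i ^ e l i) +
          if l ∈ AL then C (C (a l)) * C (D l) *
            ∏ i, (if (l, i) ∈ A then ren s (g l i) ^ e l i else 1) else 0 := by
        intro l
        rw [map_mul, map_prod, hC]
        by_cases hl : l ∈ AL
        · rw [if_pos hl, if_pos hl, C_0, zero_mul, C_0, zero_add, mul_assoc, hD]
          simp only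
          rw [map_prod, ← Finset.prod_mul_distrib]
          congr 1
          refine Finset.prod_congr rfl fun i _ => ?_
          rw [map_pow]
          by_cases hli : (l, i) ∈ A
          · rw [if_pos hli, if_pos hli, pow_zero, C_1, one_mul]
          · rw [if_neg hli, if_neg hli, mul_one, map_pow, ren_dead]
            intro b hb
            exact hli ((hAmem l i).2 ⟨b, hb⟩)
        · rw [if_neg hl, if_neg hl, add_zero, map_mul, map_prod]
          congr 1
          refine Finset.prod_congr rfl fun i _ => ?_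
          rw [map_pow, map_pow, ren_dead]
          intro b hb
          exact hALmem l hl i ((hAmem l i).2 ⟨b, hb⟩)
      rw [map_sum, Finset.sum_congr rfl fun l _ => h1 l, Finset.sum_add_distrib, ← map_sum,
        ← hD0, Finset.sum_ite_mem, Finset.univ_inter]
    rw [key]
    refine (CoefIn.c hB0).add (CoefIn.sum _ fun l hl => ?_)
    refine ((CoefIn.c ?_).mul (CoefIn.c (hBl l hl))).mul (CoefIn.prod _ fun i _ => ?_)
    · rw [← MvPolynomial.algebraMap_eq]
      exact Subalgebra.algebraMap_mem _ _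
    · split_ifs with h
      · exact (hBU l i h).pow _
      · rw [← C_1]
        exact CoefIn.c (Subalgebra.one_mem _)

end occ

end Pool.Agent.H626R2.Loc
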