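import Mathlib
import Pool.Agent.H646.Sv1
import Pool.Agent.Helper559.Mertens

open Finset

namespace Pool.Agent.H392R2.Pat

/-- elementary symmetric sum over a finset -/
noncomputable def es (x : ℕ → ℝ) (J : ℕ) (S : Finset ℕ) : ℝ :=
  ∑ T ∈ S.powersetCard J, ∏ p ∈ T, x p

lemma es_zero (x : ℕ → ℝ) (S : Finset ℕ) : es x 0 S = 1 := by
  simp [es]

lemma es_insert (x : ℕ → ℝ) (J : ℕ) {S : Finset ℕ} {q : ℕ} (hq : q ∉ S) :
    es x (J + 1) (insert q S) = es x (J + 1) S + x q * es x J S := by
  unfold es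
  rw [Finset.powersetCard_succ_insert hq, Finset.sum_union]
  · congr 1
    rw [Finset.sum_image, Finset.mul_sum]
    · apply Finset.sum_congr rfl
      intro T hT
      rw [Finset.mem_powersetCard] at hT
      rw [Finset.prod_insert (fun h => hq (hT.1 h))]
    · intro T hT T' hT' h
      have h1 := (Finset.mem_powersetCard.mp hT).1
      have h2 := (Finset.mem_powersetCard.mp hT').1
      have : (insert q T).erase q = (insert q T').erase q := by rw [h]
      rwa [Finset.erase_insert (fun h => hq (h1 h)), Finset.erase_insert (fun h => hq (h2 h))] at this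
  · rw [Finset.disjoint_left]
    intro T hT hT'
    rw [Finset.mem_image] at hT'
    obtain ⟨T', _, rfl⟩ := hT'
    exact hq ((Finset.mem_powersetCard.mp hT).1 (Finset.mem_insert_self q T'))

lemma es_nonneg (x : ℕ → ℝ) (hx : ∀ p, 0 ≤ x p) (J : ℕ) (S : Finset ℕ) : 0 ≤ es x J S :=
  Finset.sum_nonneg fun T _ => Finset.prod_nonneg fun p _ => hx p

lemma pow_sub_le (a b : ℝ) (hb : 0 ≤ b) (hab : b ≤ a) (J : ℕ) :
    a ^ (J + 1) - b ^ (J + 1) ≤ (J + 1) * ((a - b) * a ^ J) := by
  induction J with
  | zero => simp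
  | succ J ih =>
    have ha : 0 ≤ a := hb.trans hab
    have h1 : a ^ (J + 1 + 1) - b ^ (J + 1 + 1) = a * (a ^ (J + 1) - b ^ (J + 1)) + (a - b) * b ^ (J + 1) := by
      ring
    rw [h1]
    have h2 : b ^ (J + 1) ≤ a ^ (J + 1) := pow_le_pow_left₀ hb hab _
    have h3 : a * (a ^ (J + 1) - b ^ (J + 1)) ≤ a * ((J + 1) * ((a - b) * a ^ J)) :=
      mul_le_mul_of_nonneg_left ih ha
    have h4 : (a - b) * b ^ (J + 1) ≤ (a - b) * a ^ (J + 1) :=
      mul_le_mul_of_nonneg_left h2 (sub_nonneg.mpr hab)
    push_cast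
    calc _ ≤ a * ((J + 1) * ((a - b) * a ^ J)) + (a - b) * a ^ (J + 1) := add_le_add h3 h4
      _ = _ := by ring

/-- lower bound for the elementary symmetric sum -/
theorem es_ge (x : ℕ → ℝ) (δ : ℝ) (hδ : 0 ≤ δ) (hx : ∀ p, 0 ≤ x p) (S : Finset ℕ)
    (hxδ : ∀ p ∈ S, x p ≤ δ) :
    ∀ J : ℕ, (max 0 (∑ p ∈ S, x p - J * δ)) ^ J / (J.factorial : ℝ) ≤ es x J S := by
  induction S using Finset.induction_on with
  | empty =>
    intro J
    rcases Nat.eq_zero_or_pos J with rfl | hJ
    · simp [es_zero]
    · have h0 : max 0 (∑ p ∈ (∅ : Finset ℕ), x p - J * δ) = 0 := by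
        rw [Finset.sum_empty, max_eq_left]
        have : 0 ≤ (J : ℝ) * δ := by positivity
        linarith
      rw [h0, zero_pow hJ.ne', zero_div]
      exact es_nonneg x hx J ∅
  | insert q S hq ih =>
    intro J
    rcases Nat.eq_zero_or_pos J with rfl | hJ
    · simp [es_zero]
    · obtain ⟨J, rfl⟩ : ∃ J', J = J' + 1 := ⟨J - 1, by omega⟩
      rw [es_insert x J hq, Finset.sum_insert hq]
      have ih' := ih (fun p hp => hxδ p (Finset.mem_insert_of_mem hp))
      have h1 := ih' (J + 1)
      have h2 := ih' J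
      set E := ∑ p ∈ S, x p with hE
      have hxq : x q ≤ δ := hxδ q (Finset.mem_insert_self q S)
      have hxq0 := hx q
      set b := max 0 (E - ((J + 1 : ℕ) : ℝ) * δ) with hb
      set a := max 0 (x q + E - ((J + 1 : ℕ) : ℝ) * δ) with ha
      have hb0 : 0 ≤ b := le_max_left _ _
      have hab : b ≤ a := by
        apply max_le_max le_rfl; linarith
      have hsub : a - b ≤ x q := by
        rw [ha, hb]
        rcases le_total 0 (E - ((J + 1 : ℕ) : ℝ) * δ) with h | h
        · rw [max_eq_right h, max_eq_right (by linarith)]; linarith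
        · rw [max_eq_left h]
          rcases le_total 0 (x q + E - ((J + 1 : ℕ) : ℝ) * δ) with h' | h'
          · rw [max_eq_right h']; linarith
          · rw [max_eq_left h']; linarith
      have ha2 : a ≤ max 0 (E - (J : ℝ) * δ) := by
        apply max_le_max le_rfl
        push_cast
        nlinarith
      have ha0 : 0 ≤ a := le_max_left _ _
      have h3 := pow_sub_le a b hb0 hab J
      have hfac : (0 : ℝ) < (J.factorial : ℝ) := by exact_mod_cast Nat.factorial_pos J
      have hfac1 : (((J + 1).factorial : ℕ) : ℝ) = (J + 1) * (J.factorial : ℝ) := by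
        rw [Nat.factorial_succ]; push_cast; ring
      have h4 : (a ^ (J + 1) - b ^ (J + 1)) / ((J + 1).factorial : ℝ) ≤ x q * es x J S := by
        rw [hfac1, div_le_iff₀ (by positivity)]
        calc a ^ (J + 1) - b ^ (J + 1) ≤ (J + 1) * ((a - b) * a ^ J) := h3
          _ ≤ (J + 1) * (x q * (max 0 (E - (J : ℝ) * δ)) ^ J) := by
              apply mul_le_mul_of_nonneg_left _ (by positivity)
              apply mul_le_mul hsub (pow_le_pow_left₀ ha0 ha2 J) (by positivity) hxq0
          _ ≤ (J + 1) * (x q * (es x J S * (J.factorial : ℝ))) := by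
              apply mul_le_mul_of_nonneg_left _ (by positivity)
              apply mul_le_mul_of_nonneg_left _ hxq0
              rwa [div_le_iff₀ hfac] at h2
          _ = _ := by ring
      have h5 : a ^ (J + 1) / ((J + 1).factorial : ℝ) =
          b ^ (J + 1) / ((J + 1).factorial : ℝ) + (a ^ (J + 1) - b ^ (J + 1)) / ((J + 1).factorial : ℝ) := by
        ring
      rw [h5]
      exact add_le_add h1 h4

end Pool.Agent.H392R2.Pat
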