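import Mathlib
import Pool.Agent.H392R2.Pat

open Finset

namespace Pool.Agent.H392R2.Pat

open Pool.Agent.H646

lemma rho_eq {k n : ℕ} (d : Fin k → ℕ) (hd : Function.Injective d) (hdn : ∀ j, d j ≤ n) {p : ℕ}
    (hp : n < p) : rho d p = k := by
  unfold rho
  have h : (univ.image fun j => d j % p) = univ.image d := by
    apply Finset.image_congr
    intro j _
    exact Nat.mod_eq_of_lt (lt_of_le_of_lt (hdn j) hp)
  rw [h, Finset.card_image_of_injective _ hd, Finset.card_univ, Fintype.card_fin]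

/-- primes in `(n, y]` -/
def QQ (n y : ℕ) : Finset ℕ := (Finset.Ioc n y).filter Nat.Prime

theorem sel_lower {k n : ℕ} (hk : 1 ≤ k) (hkn : k ≤ n) (d : Fin k → ℕ) (hd : Function.Injective d)
    (hdn : ∀ j, d j ≤ n) (y J z : ℕ) (hz : y ^ J ≤ z) :
    es (fun p => (k : ℝ) / p) J (QQ n y) ≤
      ∑ l ∈ (∏ p ∈ PR k y, p).divisors with l ≤ z,
        ∏ p ∈ l.primeFactors, (rho d p : ℝ) / (p - rho d p) := by
  have hprime : ∀ T ∈ (QQ n y).powersetCard J, ∀ p ∈ T, p.Prime ∧ n < p ∧ p ≤ y := by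
    intro T hT p hp
    have := (Finset.mem_powersetCard.mp hT).1 hp
    rw [QQ, Finset.mem_filter, Finset.mem_Ioc] at this
    exact ⟨this.2, this.1.1, this.1.2⟩
  have hpf : ∀ T ∈ (QQ n y).powersetCard J, (∏ p ∈ T, p).primeFactors = T := by
    intro T hT
    exact Nat.primeFactors_prod (fun p hp => (hprime T hT p hp).1)
  have hinj : Set.InjOn (fun T : Finset ℕ => ∏ p ∈ T, p) ((QQ n y).powersetCard J : Set (Finset ℕ)) := by
    intro T hT T' hT' h
    have h1 := hpf T hT
    have h2 := hpf T' hT'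
    simp only at h
    rw [← h1, ← h2, h]
  have hsub : ((QQ n y).powersetCard J).image (fun T : Finset ℕ => ∏ p ∈ T, p) ⊆
      {l ∈ (∏ p ∈ PR k y, p).divisors | l ≤ z} := by
    intro l hl
    rw [Finset.mem_image] at hl
    obtain ⟨T, hT, rfl⟩ := hl
    have hP0 : (∏ p ∈ PR k y, p) ≠ 0 := by
      apply Finset.prod_ne_zero_iff.mpr
      intro p hp
      rw [PR, Finset.mem_filter] at hp
      exact hp.2.pos.ne'
    rw [Finset.mem_filter, Nat.mem_divisors]
    refine ⟨⟨?_, hP0⟩, ?_⟩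
    · apply Finset.prod_dvd_prod_of_subset
      intro p hp
      obtain ⟨h1, h2, h3⟩ := hprime T hT p hp
      rw [PR, Finset.mem_filter, Finset.mem_Ioc]
      exact ⟨⟨by omega, h3⟩, h1⟩
    · calc (∏ p ∈ T, p) ≤ ∏ _p ∈ T, y := Finset.prod_le_prod' (fun p hp => (hprime T hT p hp).2.2)
        _ = y ^ J := by rw [Finset.prod_const, (Finset.mem_powersetCard.mp hT).2]
        _ ≤ z := hz
  have hnn : ∀ l ∈ ({l ∈ (∏ p ∈ PR k y, p).divisors | l ≤ z} : Finset ℕ),
      0 ≤ ∏ p ∈ l.primeFactors, (rho d p : ℝ) / (p - rho d p) := by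
    intro l hl
    apply Finset.prod_nonneg
    intro p hp
    rw [Finset.mem_filter] at hl
    have hpl := Nat.dvd_of_mem_primeFactors hp
    have hp' := Nat.prime_of_mem_primeFactors hp
    have hm := Pool.Agent.H646.Sv1M.mem_PR_of_dvd hp' (hpl.trans (Nat.dvd_of_mem_divisors hl.1))
    have h2 := (Pool.Agent.H646.Sv1M.PR_prime' hm).2.1
    have h3 := Pool.Agent.H646.Sv1M.rho_le d p
    apply div_nonneg (Nat.cast_nonneg _)
    have : (rho d p : ℝ) ≤ p := by exact_mod_cast (h3.trans h2.le)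
    linarith
  calc es (fun p => (k : ℝ) / p) J (QQ n y)
      = ∑ T ∈ (QQ n y).powersetCard J, ∏ p ∈ T, (k : ℝ) / p := rfl
    _ ≤ ∑ T ∈ (QQ n y).powersetCard J, ∏ p ∈ (∏ q ∈ T, q).primeFactors, (rho d p : ℝ) / (p - rho d p) := by
        apply Finset.sum_le_sum
        intro T hT
        rw [hpf T hT]
        apply Finset.prod_le_prod
        · intro p _; positivity
        · intro p hp
          obtain ⟨h1, h2, h3⟩ := hprime T hT p hp
          rw [rho_eq d hd hdn h2]
          have hk0 : (0 : ℝ) < k := by exact_mod_cast hk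
          have hp0 : (0 : ℝ) < (p : ℝ) - k := by
            have : (k : ℝ) < p := by exact_mod_cast (lt_of_le_of_lt hkn h2)
            linarith
          apply div_le_div_of_nonneg_left hk0.le hp0
          linarith
    _ = ∑ l ∈ ((QQ n y).powersetCard J).image (fun T : Finset ℕ => ∏ p ∈ T, p),
          ∏ p ∈ l.primeFactors, (rho d p : ℝ) / (p - rho d p) := by
        rw [Finset.sum_image hinj]
    _ ≤ _ := Finset.sum_le_sum_of_subset_of_nonneg hsub (fun l hl _ => hnn l hl)

end Pool.Agent.H392R2.Pat
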