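import Mathlib
import Pool.Agent.H392R2.Pat2

open Finset

namespace Pool.Agent.H392R2.Pat

open Pool.Agent.H646

lemma exists_K : ∃ K : ℕ, 1 ≤ K ∧ ∀ n : ℕ, 2 ≤ n → 1 ≤ ∑ p ∈ QQ n (n ^ K), (1 : ℝ) / p := by
  obtain ⟨C, hC, hM⟩ := Pool.Agent.Helper559.mertens
  obtain ⟨K, hK⟩ := exists_nat_ge (Real.exp (2 * C + 1))
  have hKpos : 0 < (K : ℝ) := lt_of_lt_of_le (Real.exp_pos _) hK
  have hK1 : 1 ≤ K := by
    have : K ≠ 0 := by rintro rfl; simp at hKpos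
    omega
  refine ⟨K, hK1, ?_⟩
  intro n hn
  have hnK : n ≤ n ^ K := Nat.le_self_pow (by omega) n
  have h1 := (abs_le.mp (hM n hn)).2
  have h2 := (abs_le.mp (hM (n ^ K) (hn.trans hnK))).1
  have hlogn : 0 < Real.log n := Real.log_pos (by exact_mod_cast hn)
  have h3 : Real.log (Real.log ((n ^ K : ℕ) : ℝ)) = Real.log K + Real.log (Real.log n) := by
    rw [Nat.cast_pow, Real.log_pow, Real.log_mul hKpos.ne' hlogn.ne']
  have h4 : 2 * C + 1 ≤ Real.log K := by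
    rw [Real.le_log_iff_exp_le hKpos]; exact hK
  have h5 : Pool.Agent.Helper559.S (n ^ K) = Pool.Agent.Helper559.S n + ∑ p ∈ QQ n (n ^ K), (1 : ℝ) / p := by
    unfold Pool.Agent.Helper559.S QQ
    have hIcc : (Icc 1 (n ^ K)).filter Nat.Prime = (Icc 1 n).filter Nat.Prime ∪ (Ioc n (n ^ K)).filter Nat.Prime := by
      ext p
      simp only [mem_filter, mem_Icc, mem_union, mem_Ioc]
      constructor
      · rintro ⟨⟨h1, h2⟩, h3⟩
        by_cases h : p ≤ n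
        · exact Or.inl ⟨⟨h1, h⟩, h3⟩
        · exact Or.inr ⟨⟨by omega, h2⟩, h3⟩
      · rintro (⟨⟨h1, h2⟩, h3⟩ | ⟨⟨h1, h2⟩, h3⟩)
        · exact ⟨⟨h1, h2.trans hnK⟩, h3⟩
        · exact ⟨⟨h3.pos, h2⟩, h3⟩
    rw [hIcc, Finset.sum_union]
    rw [Finset.disjoint_left]
    intro p hp hp'
    rw [mem_filter, mem_Icc] at hp
    rw [mem_filter, mem_Ioc] at hp'
    omega
  rw [h3] at h2
  linarith

lemma es_big {n K k J : ℕ} (hn : 2 ≤ n) (hK : 1 ≤ ∑ p ∈ QQ n (n ^ K), (1 : ℝ) / p)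
    (hJ : 1 ≤ J) (hk : 16 * J ≤ k) (hkn : k ≤ n) :
    (8 : ℝ) ^ J ≤ es (fun p => (k : ℝ) / p) J (QQ n (n ^ K)) := by
  have hn0 : (0 : ℝ) < n := by exact_mod_cast (by omega : 0 < n)
  have hk0 : (0 : ℝ) < k := by exact_mod_cast (by omega : 0 < k)
  have hJ0 : (0 : ℝ) < J := by exact_mod_cast hJ
  have h1 := es_ge (fun p => (k : ℝ) / p) ((k : ℝ) / n) (by positivity) (fun p => by positivity)
    (QQ n (n ^ K)) (by
      intro p hp
      rw [QQ, mem_filter, mem_Ioc] at hp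
      apply div_le_div_of_nonneg_left hk0.le hn0
      exact_mod_cast hp.1.1.le) J
  refine le_trans ?_ h1
  have hsum : ∑ p ∈ QQ n (n ^ K), (k : ℝ) / p = k * ∑ p ∈ QQ n (n ^ K), (1 : ℝ) / p := by
    rw [Finset.mul_sum]
    apply Finset.sum_congr rfl
    intro p _
    ring
  have h2 : (k : ℝ) / 2 ≤ ∑ p ∈ QQ n (n ^ K), (k : ℝ) / p - J * ((k : ℝ) / n) := by
    rw [hsum]
    have h3 : (J : ℝ) * ((k : ℝ) / n) ≤ k / 2 := by
      rw [mul_div_assoc', div_le_div_iff₀ hn0 (by norm_num)]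
      have : (16 : ℝ) * J ≤ k := by exact_mod_cast hk
      have h4 : (k : ℝ) ≤ n := by exact_mod_cast hkn
      nlinarith
    nlinarith
  have h3 : (k : ℝ) / 2 ≤ max 0 (∑ p ∈ QQ n (n ^ K), (k : ℝ) / p - J * ((k : ℝ) / n)) :=
    h2.trans (le_max_right _ _)
  have hfac : (0 : ℝ) < (J.factorial : ℝ) := by exact_mod_cast Nat.factorial_pos J
  have hfac2 : (J.factorial : ℝ) ≤ (J : ℝ) ^ J := by exact_mod_cast Nat.factorial_le_pow J
  rw [le_div_iff₀ hfac]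
  calc (8 : ℝ) ^ J * (J.factorial : ℝ) ≤ 8 ^ J * (J : ℝ) ^ J :=
        mul_le_mul_of_nonneg_left hfac2 (by positivity)
    _ = (8 * J) ^ J := by rw [mul_pow]
    _ ≤ ((k : ℝ) / 2) ^ J := by
        apply pow_le_pow_left₀ (by positivity)
        have : (16 : ℝ) * J ≤ k := by exact_mod_cast hk
        linarith
    _ ≤ _ := pow_le_pow_left₀ (by positivity) h3 J

/-- multiplicity bound for a large pattern -/
theorem mult_le {n K k J : ℕ} (hn : 2 ≤ n) (hK : 1 ≤ ∑ p ∈ QQ n (n ^ K), (1 : ℝ) / p)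
    (hJ : 1 ≤ J) (hk : 16 * J ≤ k) (hkn : k ≤ n) (A : Finset ℕ) (hA : A ⊆ Finset.Icc 1 n)
    (hAk : k ≤ #A) (M : ℕ) :
    (#{m ∈ Icc 1 M | ∀ a ∈ A, (m + a).Prime} : ℝ) ≤
      ((n ^ K : ℕ) : ℝ) + M / 8 ^ J + ((n ^ (K * J) : ℕ) : ℝ) ^ 6 := by
  obtain ⟨B, hBA, hB⟩ := Finset.exists_subset_card_eq hAk
  let d : Fin k → ℕ := fun j => B.orderEmbOfFin hB j
  have hd : Function.Injective d := (B.orderEmbOfFin hB).injective
  have hdB : ∀ j, d j ∈ B := fun j => Finset.orderEmbOfFin_mem B hB j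
  have hdn : ∀ j, d j ≤ n := fun j => (Finset.mem_Icc.mp (hA (hBA (hdB j)))).2
  have hn1 : 1 ≤ n := by omega
  have h1 := Pool.Agent.H646.Sv1M.tuple_selberg k (by omega) d hd M (n ^ K) (n ^ (K * J))
    (Nat.one_le_pow _ _ (by omega))
  have h2 := sel_lower (by omega) hkn d hd hdn (n ^ K) J (n ^ (K * J)) (by rw [pow_mul])
  have h3 := es_big hn hK hJ hk hkn
  have h4 : (8 : ℝ) ^ J ≤ ∑ l ∈ (∏ p ∈ PR k (n ^ K), p).divisors with l ≤ (n ^ (K * J)),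
        ∏ p ∈ l.primeFactors, (rho d p : ℝ) / (p - rho d p) := h3.trans h2
  have h5 : (#{m ∈ Icc 1 M | ∀ a ∈ A, (m + a).Prime} : ℝ) ≤ (#{m ∈ Icc 1 M | ∀ j, (m + d j).Prime} : ℝ) := by
    exact_mod_cast Finset.card_le_card (by
      intro m hm
      rw [mem_filter] at hm ⊢
      exact ⟨hm.1, fun j => hm.2 _ (hBA (hdB j))⟩)
  have h6 : (M : ℝ) / (∑ l ∈ (∏ p ∈ PR k (n ^ K), p).divisors with l ≤ (n ^ (K * J)),
        ∏ p ∈ l.primeFactors, (rho d p : ℝ) / (p - rho d p)) ≤ M / 8 ^ J :=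
    div_le_div_of_nonneg_left (Nat.cast_nonneg _) (by positivity) h4
  linarith

end Pool.Agent.H392R2.Pat
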