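import Mathlib
import Pool.Agent.H392R2.Pat3

open Finset

namespace Pool.Agent.H392R2.Pat

/-- the prime pattern of the window `(m, m+n]` -/
def pat (m n : ℕ) : Finset ℕ := (Finset.Icc 1 n).filter (fun i => (m + i).Prime)

lemma card_shift_ge (i M : ℕ) :
    (Nat.primeCounting M : ℝ) - i ≤ (#{m ∈ Icc 1 M | (m + i).Prime} : ℝ) := by
  have h1 : Nat.primeCounting M = #((Icc 1 M).filter Nat.Prime) := by
    rw [Nat.primeCounting, Nat.primeCounting', Nat.count_eq_card_filter_range]
    congr 1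
    ext p
    simp only [mem_filter, mem_range, mem_Icc]
    constructor
    · rintro ⟨h1, h2⟩; exact ⟨⟨h2.pos, by omega⟩, h2⟩
    · rintro ⟨⟨h1, h2⟩, h3⟩; exact ⟨by omega, h3⟩
  have h2 : (Icc 1 M).filter Nat.Prime ⊆ Icc 1 i ∪ ({m ∈ Icc 1 M | (m + i).Prime} : Finset ℕ).image (· + i) := by
    intro p hp
    rw [mem_filter, mem_Icc] at hp
    rw [mem_union, mem_Icc, mem_image]
    by_cases h : p ≤ i
    · exact Or.inl ⟨hp.1.1, h⟩
    · right
      refine ⟨p - i, ?_, by omega⟩
      rw [mem_filter, mem_Icc]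
      refine ⟨⟨by omega, by omega⟩, ?_⟩
      rw [show p - i + i = p by omega]
      exact hp.2
  have h3 := (card_le_card h2).trans (card_union_le _ _)
  rw [Nat.card_Icc, Nat.add_sub_cancel] at h3
  have h4 := h3.trans (Nat.add_le_add_left card_image_le i)
  rw [← h1] at h4
  have h5 : (Nat.primeCounting M : ℝ) ≤ i + (#{m ∈ Icc 1 M | (m + i).Prime} : ℝ) := by exact_mod_cast h4
  linarith

lemma sum_pat_ge (n M : ℕ) :
    (n : ℝ) * ((Nat.primeCounting M : ℝ) - n) ≤ ∑ m ∈ Icc 1 M, (#(pat m n) : ℝ) := by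
  have h1 : ∑ m ∈ Icc 1 M, (#(pat m n) : ℝ) = ∑ i ∈ Icc 1 n, (#{m ∈ Icc 1 M | (m + i).Prime} : ℝ) := by
    have : ∑ m ∈ Icc 1 M, #(pat m n) = ∑ i ∈ Icc 1 n, #{m ∈ Icc 1 M | (m + i).Prime} := by
      simp only [pat, Finset.card_filter]
      rw [Finset.sum_comm]
    exact_mod_cast this
  rw [h1]
  calc (n : ℝ) * ((Nat.primeCounting M : ℝ) - n) = ∑ _i ∈ Icc 1 n, ((Nat.primeCounting M : ℝ) - n) := by
        rw [Finset.sum_const, Nat.card_Icc, Nat.add_sub_cancel, nsmul_eq_mul]
    _ ≤ _ := by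
        apply Finset.sum_le_sum
        intro i hi
        have h2 := card_shift_ge i M
        have h3 : (i : ℝ) ≤ n := by exact_mod_cast (mem_Icc.mp hi).2
        linarith

lemma card_pat_le (m n : ℕ) : #(pat m n) ≤ n := by
  calc #(pat m n) ≤ #(Icc 1 n) := card_filter_le _ _
    _ = n := by rw [Nat.card_Icc, Nat.add_sub_cancel]

/-- good windows -/
def good (n k M : ℕ) : Finset ℕ := (Icc 1 M).filter (fun m => n ≤ m ∧ k ≤ #(pat m n))

lemma good_ge (n k M : ℕ) (hn : 1 ≤ n) :
    (Nat.primeCounting M : ℝ) - 2 * n - k * M / n ≤ (#(good n k M) : ℝ) := by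
  have hn0 : (0 : ℝ) < n := by exact_mod_cast hn
  have h1 := sum_pat_ge n M
  have h2 : ∑ m ∈ Icc 1 M, (#(pat m n) : ℝ) ≤ n * n + n * (#(good n k M) : ℝ) + k * M := by
    have h3 : ∀ m ∈ Icc 1 M, (#(pat m n) : ℝ) ≤
        (if m < n then (n : ℝ) else 0) + (if (n ≤ m ∧ k ≤ #(pat m n)) then (n : ℝ) else 0) + k := by
      intro m _
      have hc : (#(pat m n) : ℝ) ≤ n := by exact_mod_cast card_pat_le m n
      have hk0 : (0 : ℝ) ≤ k := Nat.cast_nonneg k
      by_cases h : m < n
      · rw [if_pos h]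
        split_ifs <;> linarith
      · rw [if_neg h]
        by_cases h' : k ≤ #(pat m n)
        · rw [if_pos ⟨by omega, h'⟩]; linarith
        · rw [if_neg (fun hh => h' hh.2)]
          have : (#(pat m n) : ℝ) ≤ k := by exact_mod_cast (by omega : #(pat m n) ≤ k)
          linarith
    refine (Finset.sum_le_sum h3).trans ?_
    rw [Finset.sum_add_distrib, Finset.sum_add_distrib, ← Finset.sum_filter, ← Finset.sum_filter,
      Finset.sum_const, Finset.sum_const, Finset.sum_const, nsmul_eq_mul, nsmul_eq_mul, nsmul_eq_mul,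
      Nat.card_Icc, Nat.add_sub_cancel]
    have h4 : (#((Icc 1 M).filter (fun m => m < n)) : ℝ) ≤ n := by
      have : #((Icc 1 M).filter (fun m => m < n)) ≤ n := by
        calc _ ≤ #(range n) := card_le_card (by
                intro m hm
                rw [mem_filter] at hm
                exact mem_range.mpr hm.2)
          _ = n := card_range n
      exact_mod_cast this
    have h5 : (#((Icc 1 M).filter (fun m => n ≤ m ∧ k ≤ #(pat m n))) : ℝ) = (#(good n k M) : ℝ) := rfl
    rw [h5]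
    nlinarith
  have h3 : (n : ℝ) * ((Nat.primeCounting M : ℝ) - n) ≤ n * n + n * (#(good n k M) : ℝ) + k * M := h1.trans h2
  have h4 : (n : ℝ) * ((Nat.primeCounting M : ℝ) - 2 * n - k * M / n) ≤ n * (#(good n k M) : ℝ) := by
    have : (n : ℝ) * (k * M / n) = k * M := by field_simp
    nlinarith
  exact le_of_mul_le_mul_left h4 hn0

/-- the set of realised patterns -/
def pats (n k M : ℕ) : Finset (Finset ℕ) := (good n k M).image (fun m => pat m n)

theorem pats_ge {n K k J : ℕ} (hn : 2 ≤ n) (hK : 1 ≤ ∑ p ∈ QQ n (n ^ K), (1 : ℝ) / p)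
    (hJ : 1 ≤ J) (hk : 16 * J ≤ k) (hkn : k ≤ n) (M : ℕ) :
    (#(good n k M) : ℝ) ≤ (#(pats n k M) : ℝ) *
      (((n ^ K : ℕ) : ℝ) + M / 8 ^ J + ((n ^ (K * J) : ℕ) : ℝ) ^ 6) := by
  have h1 : #(good n k M) = ∑ A ∈ pats n k M, #{m ∈ good n k M | pat m n = A} := by
    apply Finset.card_eq_sum_card_fiberwise
    intro m hm
    exact Finset.mem_image_of_mem _ hm
  have h2 : (#(good n k M) : ℝ) = ∑ A ∈ pats n k M, (#{m ∈ good n k M | pat m n = A} : ℝ) := by
    rw [h1]; push_cast; rfl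
  rw [h2]
  calc _ ≤ ∑ A ∈ pats n k M, (((n ^ K : ℕ) : ℝ) + M / 8 ^ J + ((n ^ (K * J) : ℕ) : ℝ) ^ 6) := by
        apply Finset.sum_le_sum
        intro A hA
        rw [pats, Finset.mem_image] at hA
        obtain ⟨m₀, hm₀, hA⟩ := hA
        have hAk : k ≤ #A := by
          rw [← hA]
          rw [good, mem_filter] at hm₀
          exact hm₀.2.2
        have hAn : A ⊆ Icc 1 n := by
          rw [← hA]; exact filter_subset _ _
        have h3 := mult_le hn hK hJ hk hkn A hAn hAk M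
        refine le_trans ?_ h3
        exact_mod_cast Finset.card_le_card (by
          intro m hm
          rw [mem_filter] at hm ⊢
          obtain ⟨hm1, hm2⟩ := hm
          rw [good, mem_filter] at hm1
          refine ⟨hm1.1, ?_⟩
          intro a ha
          rw [← hm2, pat, mem_filter] at ha
          exact ha.2)
    _ = _ := by rw [Finset.sum_const, nsmul_eq_mul]

end Pool.Agent.H392R2.Pat
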