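import Mathlib
import Pool.Agent.H392R2.Pat4

open Finset

namespace Pool.Agent.H392R2.Pat

lemma pi_lower {M : ℕ} (hM : 64 ≤ M) : (M : ℝ) / (2 * Real.log M) ≤ Nat.primeCounting M := by
  have h1 := Chebyshev.pi_ge M
  have hM0 : (64 : ℝ) ≤ M := by exact_mod_cast hM
  have hlog : 0 < Real.log M := Real.log_pos (by linarith)
  refine le_trans ?_ h1
  rw [div_le_div_iff₀ (by positivity) hlog]
  have h2 : Real.log (M + 1) ≤ 0.15 * M := by
    -- log (M+1) ≤ 2 sqrt(M+1) ... use log x ≤ x/16 + log 16 - 1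
    have h3 : Real.log ((M + 1) / 16) ≤ (M + 1) / 16 - 1 := by
      have := Real.log_le_sub_one_of_pos (x := ((M : ℝ) + 1) / 16) (by positivity)
      linarith
    rw [Real.log_div (by positivity) (by norm_num)] at h3
    have h4 : Real.log 16 = 4 * Real.log 2 := by
      rw [show (16 : ℝ) = 2 ^ 4 by norm_num, Real.log_pow]; norm_num
    have h5 := Real.log_two_lt_d9
    rw [h4] at h3
    linarith
  have h6 := Real.log_two_gt_d9
  have h7 : (M : ℝ) ≤ 2 * (M * Real.log 2 - Real.log (M + 1)) := by nlinarith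
  nlinarith

theorem pats_big {n K J : ℕ} (hn : 64 ≤ n) (hK1 : 1 ≤ K)
    (hK : 1 ≤ ∑ p ∈ QQ n (n ^ K), (1 : ℝ) / p)
    (hJ : 1 ≤ J) (hJn : 768 * (K : ℝ) * (J : ℝ) ^ 2 * Real.log n ≤ n) :
    2 * (8 : ℝ) ^ J / n ≤ (#(pats n (16 * J) (n ^ (12 * K * J))) : ℝ) := by
  set M := n ^ (12 * K * J) with hMdef
  have hn0 : (64 : ℝ) ≤ n := by exact_mod_cast hn
  have hK0 : (1 : ℝ) ≤ K := by exact_mod_cast hK1
  have hJ0 : (1 : ℝ) ≤ J := by exact_mod_cast hJ
  have hlogn : 1 ≤ Real.log n := by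
    rw [Real.le_log_iff_exp_le (by linarith)]
    have := Real.exp_one_lt_d9
    linarith
  have hMlog : Real.log M = 12 * K * J * Real.log n := by
    rw [hMdef]; push_cast; rw [Real.log_pow]; push_cast; ring
  have hLM : 0 < Real.log M := by rw [hMlog]; positivity
  have hLM2 : 64 * (J * Real.log M) ≤ n := by
    rw [hMlog]
    calc 64 * ((J : ℝ) * (12 * K * J * Real.log n)) = 768 * (K : ℝ) * (J : ℝ) ^ 2 * Real.log n := by ring
      _ ≤ n := hJn
  have hLM3 : 64 * Real.log M ≤ n := by nlinarith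
  have hKJ : 1 ≤ K * J := Nat.mul_pos hK1 hJ
  have hM2 : n ^ 2 ≤ M := by
    rw [hMdef]
    apply Nat.pow_le_pow_right (by omega)
    nlinarith
  have hM64 : 64 ≤ M := by nlinarith
  have hM2' : (n : ℝ) ^ 2 ≤ M := by exact_mod_cast hM2
  have hM0 : (0 : ℝ) < M := by nlinarith
  have hkn : 16 * J ≤ n := by
    have : (16 : ℝ) * J ≤ n := by
      have h1 : (J : ℝ) ≤ K * J ^ 2 * Real.log n := by
        have h2 : (J : ℝ) ≤ J ^ 2 := by nlinarith
        have h3 : (J : ℝ) ^ 2 ≤ K * J ^ 2 := by nlinarith [sq_nonneg (J : ℝ)]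
        have h4 : (K : ℝ) * J ^ 2 ≤ K * J ^ 2 * Real.log n := by
          have : 0 ≤ (K : ℝ) * J ^ 2 := by positivity
          nlinarith
        linarith
      nlinarith
    exact_mod_cast this
  -- lower bound for the number of good windows
  have hg := good_ge n (16 * J) M (by omega)
  have hpi := pi_lower hM64
  have hg1 : (((16 * J : ℕ) : ℝ)) * M / n ≤ M / (4 * Real.log M) := by
    rw [div_le_div_iff₀ (by linarith) (by positivity)]
    push_cast
    have : (16 * (J : ℝ)) * M * (4 * Real.log M) = M * (64 * (J * Real.log M)) := by ring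
    rw [this]
    exact mul_le_mul_of_nonneg_left hLM2 hM0.le
  have hg2 : 2 * (n : ℝ) ≤ M / (8 * Real.log M) := by
    rw [le_div_iff₀ (by positivity)]
    nlinarith
  have hg3 : (M : ℝ) / (8 * Real.log M) ≤ (#(good n (16 * J) M) : ℝ) := by
    have h1 : (M : ℝ) / (2 * Real.log M) - M / (4 * Real.log M) - M / (8 * Real.log M) = M / (8 * Real.log M) := by
      field_simp; norm_num
    linarith
  -- the multiplicity bound
  have hup := pats_ge (n := n) (K := K) (k := 16 * J) (J := J) (by omega) hK hJ le_rfl hkn M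
  have h8 : (0 : ℝ) < 8 ^ J := by positivity
  have hn6 : ((8 : ℝ) ^ J) * ((n ^ (K * J) : ℕ) : ℝ) ^ 6 ≤ M := by
    have h1 : ((M : ℕ) : ℝ) = ((n ^ (K * J) : ℕ) : ℝ) ^ 6 * ((n ^ (K * J) : ℕ) : ℝ) ^ 6 := by
      rw [hMdef]; push_cast; rw [← pow_mul, ← pow_add]; congr 1; ring
    rw [h1]
    apply mul_le_mul_of_nonneg_right _ (by positivity)
    push_cast
    rw [← pow_mul]
    calc (8 : ℝ) ^ J ≤ (n : ℝ) ^ J := pow_le_pow_left₀ (by norm_num) (by linarith) J
      _ ≤ (n : ℝ) ^ (K * J * 6) := by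
          apply pow_le_pow_right₀ (by linarith)
          nlinarith
  have hnK : ((n ^ K : ℕ) : ℝ) ≤ ((n ^ (K * J) : ℕ) : ℝ) ^ 6 := by
    push_cast
    rw [← pow_mul]
    apply pow_le_pow_right₀ (by linarith)
    nlinarith
  have hD : ((n ^ K : ℕ) : ℝ) + M / 8 ^ J + ((n ^ (K * J) : ℕ) : ℝ) ^ 6 ≤ 3 * M / 8 ^ J := by
    have h1 : ((n ^ (K * J) : ℕ) : ℝ) ^ 6 ≤ M / 8 ^ J := by
      rw [le_div_iff₀ h8]; linarith
    have h2 : 3 * (M : ℝ) / 8 ^ J = M / 8 ^ J + M / 8 ^ J + M / 8 ^ J := by ring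
    rw [h2]
    linarith
  have h3 : (M : ℝ) / (8 * Real.log M) ≤ (#(pats n (16 * J) M) : ℝ) * (3 * M / 8 ^ J) :=
    hg3.trans (hup.trans (mul_le_mul_of_nonneg_left hD (Nat.cast_nonneg _)))
  have h4 : (8 : ℝ) ^ J / (24 * Real.log M) ≤ (#(pats n (16 * J) M) : ℝ) := by
    rw [div_le_iff₀ (by positivity)]
    rw [div_le_iff₀ (by positivity)] at h3
    have h5 : (M : ℝ) * 8 ^ J ≤ M * ((#(pats n (16 * J) M) : ℝ) * (24 * Real.log M)) := by
      calc (M : ℝ) * 8 ^ J ≤ ((#(pats n (16 * J) M) : ℝ) * (3 * M / 8 ^ J) * (8 * Real.log M)) * 8 ^ J :=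
            mul_le_mul_of_nonneg_right h3 h8.le
        _ = _ := by field_simp; ring
    exact le_of_mul_le_mul_left h5 hM0
  refine le_trans ?_ h4
  rw [div_le_div_iff₀ (by linarith) (by positivity)]
  nlinarith

end Pool.Agent.H392R2.Pat
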