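import Mathlib
import Pool.Agent.H392R2.Pat5

open Finset

namespace Pool.Agent.H392R2.Pat

/-- least element (0 for the empty set) -/
noncomputable def lo (A : Finset ℕ) : ℕ := sInf (A : Set ℕ)

lemma lo_mem {A : Finset ℕ} (h : A.Nonempty) : lo A ∈ A := by
  have := Nat.sInf_mem (s := (A : Set ℕ)) (by exact_mod_cast h)
  exact_mod_cast this

lemma lo_le {A : Finset ℕ} {a : ℕ} (h : a ∈ A) : lo A ≤ a := Nat.sInf_le (by exact_mod_cast h)

/-- translate to have least element `0` -/
noncomputable def nrm (A : Finset ℕ) : Finset ℕ := A.image (fun a => a - lo A)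

lemma nrm_inj_aux {A B : Finset ℕ} (h : nrm A = nrm B) (hl : lo A = lo B) : A = B := by
  have key : ∀ A : Finset ℕ, A = (nrm A).image (fun h => h + lo A) := by
    intro A
    ext a
    rw [nrm, Finset.image_image, mem_image]
    constructor
    · intro ha
      exact ⟨a, ha, by simp [Nat.sub_add_cancel (lo_le ha)]⟩
    · rintro ⟨b, hb, rfl⟩
      simpa [Nat.sub_add_cancel (lo_le hb)] using hb
  rw [key A, key B, h, hl]

lemma mem_nrm {A : Finset ℕ} (i : ℕ) : i ∈ nrm A ↔ i + lo A ∈ A := by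
  rw [nrm, mem_image]
  constructor
  · rintro ⟨b, hb, rfl⟩
    simpa [Nat.sub_add_cancel (lo_le hb)] using hb
  · intro h
    exact ⟨_, h, by simp⟩

lemma card_nrm (A : Finset ℕ) : #(nrm A) = #A := by
  rw [nrm, Finset.card_image_of_injOn]
  intro a ha b hb h
  have h1 := lo_le ha
  have h2 := lo_le hb
  simp only at h
  omega

/-- everything about one pattern -/
lemma pattern_props {n k M : ℕ} (hk : 1 ≤ k) {A : Finset ℕ} (hA : A ∈ pats n k M) :
    (1 ≤ lo A ∧ lo A ≤ n) ∧ 0 ∈ nrm A ∧ (∀ h ∈ nrm A, h ≤ n) ∧ k ≤ #(nrm A) ∧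
    (∀ p : ℕ, p.Prime → ∃ r : ℕ, ∀ h ∈ nrm A, h % p ≠ r % p) ∧
    ∃ N : ℕ, n < N ∧ N ≤ M + n ∧ ∀ i : ℕ, (∃ h ∈ nrm A, i ≤ h) → ((N + i).Prime ↔ i ∈ nrm A) := by
  rw [pats, mem_image] at hA
  obtain ⟨m, hm, rfl⟩ := hA
  rw [good, mem_filter, mem_Icc] at hm
  obtain ⟨⟨hm1, hmM⟩, hnm, hcard⟩ := hm
  set A := pat m n with hAdef
  have hne : A.Nonempty := by
    rw [← Finset.card_pos]; omega
  have hsub : ∀ a ∈ A, 1 ≤ a ∧ a ≤ n ∧ (m + a).Prime := by
    intro a ha
    rw [hAdef, pat, mem_filter, mem_Icc] at ha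
    exact ⟨ha.1.1, ha.1.2, ha.2⟩
  have hlo := hsub _ (lo_mem hne)
  refine ⟨⟨hlo.1, hlo.2.1⟩, ?_, ?_, ?_, ?_, ?_⟩
  · rw [mem_nrm, zero_add]; exact lo_mem hne
  · intro h hh
    rw [mem_nrm] at hh
    have := (hsub _ hh).2.1
    omega
  · rw [card_nrm]; exact hcard
  · intro p hp
    by_cases hpn : p ≤ n
    · -- the class of `-(m + lo A)`
      refine ⟨(p - (m + lo A) % p), ?_⟩
      intro h hh heq
      rw [mem_nrm] at hh
      obtain ⟨h1, h2, h3⟩ := hsub _ hh
      have hp0 := hp.pos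
      have h4 : p ∣ m + (h + lo A) := by
        have hlt := Nat.mod_lt (m + lo A) hp0
        have h5 : (h + (m + lo A)) % p = ((p - (m + lo A) % p) + (m + lo A)) % p := by
          rw [Nat.add_mod, heq, ← Nat.add_mod]
        have h6 : ((p - (m + lo A) % p) + (m + lo A)) % p = 0 := by
          have h7 : (p - (m + lo A) % p) + (m + lo A) = p + p * ((m + lo A) / p) := by
            have := Nat.mod_add_div (m + lo A) p
            omega
          rw [h7, Nat.add_mul_mod_self_left, Nat.mod_self]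
        rw [h6] at h5
        have h8 : m + (h + lo A) = h + (m + lo A) := by ring
        rw [h8]
        exact Nat.dvd_of_mod_eq_zero h5
      have h5 := (Nat.prime_dvd_prime_iff_eq hp h3).mp h4
      omega
    · refine ⟨n, ?_⟩
      intro h hh heq
      rw [mem_nrm] at hh
      have h2 := (hsub _ hh).2.1
      have hlo1 := hlo.1
      rw [Nat.mod_eq_of_lt (by omega), Nat.mod_eq_of_lt (by omega)] at heq
      omega
  · refine ⟨m + lo A, by omega, by omega, ?_⟩
    rintro i ⟨h, hh, hih⟩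
    rw [mem_nrm] at hh
    have h2 := (hsub _ hh).2.1
    have hlo1 := hlo.1
    have key : ∀ x, x ∈ A ↔ (1 ≤ x ∧ x ≤ n) ∧ (m + x).Prime := by
      intro x
      rw [hAdef, pat, mem_filter, mem_Icc]
    rw [mem_nrm, key, show m + lo A + i = m + (i + lo A) by ring]
    constructor
    · intro hp
      exact ⟨⟨by omega, by omega⟩, hp⟩
    · rintro ⟨_, hp⟩
      exact hp

/-- normalised patterns -/
noncomputable def npats (n k M : ℕ) : Finset (Finset ℕ) := (pats n k M).image nrm

lemma npats_card {n k M : ℕ} (hk : 1 ≤ k) : #(pats n k M) ≤ #(npats n k M) * n := by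
  have h1 : #(pats n k M) = ∑ H ∈ npats n k M, #{A ∈ pats n k M | nrm A = H} := by
    apply Finset.card_eq_sum_card_fiberwise
    intro A hA
    exact Finset.mem_image_of_mem _ hA
  rw [h1, ← smul_eq_mul, ← Finset.sum_const]
  apply Finset.sum_le_sum
  intro H _
  have h2 : #{A ∈ pats n k M | nrm A = H} ≤ #(Icc 1 n) := by
    apply Finset.card_le_card_of_injOn lo
    · intro A hA
      rw [Finset.mem_coe, mem_filter] at hA
      rw [Finset.mem_coe, mem_Icc]
      exact (pattern_props hk hA.1).1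
    · intro A hA B hB h
      rw [Finset.mem_coe, mem_filter] at hA hB
      exact nrm_inj_aux (hA.2.trans hB.2.symm) h
  rwa [Nat.card_Icc, Nat.add_sub_cancel] at h2

end Pool.Agent.H392R2.Pat
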